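import Mathlib

set_option autoImplicit false

open MeasureTheory Set Filter Topology Metric
open scoped ENNReal NNReal

namespace Pool.Agent.H91.Liou

/-- a set with arbitrarily cheap covers is null -/
lemma hausdorff_zero_of_covers {α : Type} [MetricSpace α] [MeasurableSpace α] [BorelSpace α]
    {S : Set α} {t : ℝ} (ht : 0 < t)
    (h : ∀ η : ℝ≥0∞, 0 < η → ∃ (ι : Type) (_ : Countable ι) (U : ι → Set α),
      S ⊆ ⋃ i, U i ∧ ∑' i, ediam (U i) ^ t ≤ η) : μH[t] S = 0 := by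
  have h' : ∀ N : ℕ, ∃ (ι : Type) (_ : Countable ι) (U : ι → Set α),
      S ⊆ ⋃ i, U i ∧ ∑' i, ediam (U i) ^ t ≤ (N : ℝ≥0∞)⁻¹ := by
    intro N
    apply h
    simp
  choose ι hc U hU hs using h'
  have hc' : ∀ N, Countable (ι N) := hc
  have hlim : Tendsto (fun N : ℕ => (N : ℝ≥0∞)⁻¹) atTop (𝓝 0) := ENNReal.tendsto_inv_nat_nhds_zero
  have hr : Tendsto (fun N : ℕ => ((N : ℝ≥0∞)⁻¹) ^ (1 / t)) atTop (𝓝 0) := by
    have h1 := (ENNReal.continuous_rpow_const (y := 1 / t)).tendsto 0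
    rw [ENNReal.zero_rpow_of_pos (by positivity)] at h1
    exact h1.comp hlim
  have key := Measure.hausdorffMeasure_le_liminf_tsum (l := atTop) t S
    (fun N : ℕ => ((N : ℝ≥0∞)⁻¹) ^ (1 / t)) hr U
    (Eventually.of_forall fun N i => by
      have h1 : ediam (U N i) ^ t ≤ (N : ℝ≥0∞)⁻¹ := (ENNReal.le_tsum i).trans (hs N)
      have h2 := ENNReal.rpow_le_rpow h1 (show (0:ℝ) ≤ 1 / t by positivity)
      rwa [← ENNReal.rpow_mul, mul_one_div_cancel ht.ne', ENNReal.rpow_one] at h2)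
    (Eventually.of_forall fun N => hU N)
  have h3 : liminf (fun N : ℕ => ∑' i, ediam (U N i) ^ t) atTop ≤ 0 := by
    calc liminf (fun N : ℕ => ∑' i, ediam (U N i) ^ t) atTop
        ≤ liminf (fun N : ℕ => (N : ℝ≥0∞)⁻¹) atTop :=
          liminf_le_liminf (Eventually.of_forall hs)
      _ = 0 := hlim.liminf_eq
  exact le_antisymm (key.trans h3) bot_le

lemma exists_level_small {d : ℝ} (hd : 0 < d) {δ : ℝ≥0∞} (hδ : 0 < δ) (n0 : ℕ) :
    ∃ m : ℕ, n0 ≤ m ∧ ENNReal.ofReal ((1/2:ℝ)^(d * m)) ≤ δ := by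
  have hq : ((1/2:ℝ)^d) < 1 := Real.rpow_lt_one (by norm_num) (by norm_num) hd
  have hq0 : 0 ≤ ((1/2:ℝ)^d) := by positivity
  have hQ : ENNReal.ofReal ((1/2:ℝ)^d) < 1 := by
    rw [← ENNReal.ofReal_one]; exact (ENNReal.ofReal_lt_ofReal_iff one_pos).2 hq
  have h1 := ENNReal.tendsto_pow_atTop_nhds_zero_of_lt_one hQ
  have h2 := (h1.eventually (gt_mem_nhds hδ)).and (eventually_ge_atTop n0)
  obtain ⟨m, hm1, hm2⟩ := h2.exists
  refine ⟨m, hm2, ?_⟩
  rw [Real.rpow_mul (by norm_num), Real.rpow_natCast, ENNReal.ofReal_pow hq0]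
  exact hm1.le

/-- extraction of a cover by balls of dyadic radius from a null set -/
lemma exists_dyadic_cover {α : Type} [MetricSpace α] [Nonempty α] [MeasurableSpace α]
    [BorelSpace α] {S : Set α} {d : ℝ} (hd : 0 < d) (h : μH[d] S = 0) {η : ℝ≥0∞} (hη : 0 < η)
    (n0 : ℕ) :
    ∃ (z : ℕ → α) (m : ℕ → ℕ), (S ⊆ ⋃ i, closedBall (z i) ((1/2)^(m i))) ∧ (∀ i, n0 ≤ m i) ∧
      ∑' i, ENNReal.ofReal ((1/2:ℝ)^(d * m i)) ≤ η := by
  set C : ℝ≥0∞ := ENNReal.ofReal (2 ^ d) with hC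
  have hC0 : C ≠ 0 := by
    rw [hC]; simp only [ne_eq, ENNReal.ofReal_eq_zero, not_le]; positivity
  have hCt : C ≠ ∞ := ENNReal.ofReal_ne_top
  set r : ℝ≥0∞ := ENNReal.ofReal ((1/2)^(n0+1)) with hr
  have hr0 : 0 < r := by rw [hr]; simp only [ENNReal.ofReal_pos]; positivity
  have hε : 0 < C⁻¹ * (η / 2) := by
    apply ENNReal.mul_pos
    · exact ENNReal.inv_ne_zero.2 hCt
    · exact (ENNReal.half_pos hη.ne').ne'
  have h1 : (⨅ (t : ℕ → Set α) (_ : S ⊆ ⋃ n, t n) (_ : ∀ n, ediam (t n) ≤ r),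
      ∑' n, ⨆ _ : (t n).Nonempty, ediam (t n) ^ d) ≤ 0 := by
    rw [← h, Measure.hausdorffMeasure_apply]
    exact le_iSup₂ (f := fun (r : ℝ≥0∞) (_ : 0 < r) =>
      ⨅ (t : ℕ → Set α) (_ : S ⊆ ⋃ n, t n) (_ : ∀ n, ediam (t n) ≤ r),
        ∑' n, ⨆ _ : (t n).Nonempty, ediam (t n) ^ d) r hr0
  have h2 := lt_of_le_of_lt h1 hε
  simp only [iInf_lt_iff] at h2
  obtain ⟨t, hcov, hdiam, hsum⟩ := h2
  obtain ⟨δ, hδ0, hδs⟩ := ENNReal.exists_pos_sum_of_countable' (ENNReal.half_pos hη.ne').ne' ℕ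
  have key : ∀ n, ∃ (z : α) (m : ℕ), t n ⊆ closedBall z ((1/2)^m) ∧ n0 ≤ m ∧
      ENNReal.ofReal ((1/2:ℝ)^(d * m)) ≤ C * (⨆ _ : (t n).Nonempty, ediam (t n) ^ d) + δ n := by
    intro n
    rcases (t n).eq_empty_or_nonempty with he | ⟨z, hz⟩
    · obtain ⟨m, hm, hm2⟩ := exists_level_small hd (hδ0 n) n0
      exact ⟨Classical.arbitrary α, m, by rw [he]; exact empty_subset _, hm,
        hm2.trans le_add_self⟩
    · have hrt : ediam (t n) ≠ ∞ := ne_top_of_le_ne_top ENNReal.ofReal_ne_top (hdiam n)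
      rcases eq_or_ne (ediam (t n)) 0 with h0 | h0
      · obtain ⟨m, hm, hm2⟩ := exists_level_small hd (hδ0 n) n0
        refine ⟨z, m, ?_, hm, hm2.trans le_add_self⟩
        intro y hy
        have h3 : edist y z ≤ ediam (t n) := edist_le_ediam_of_mem hy hz
        rw [h0] at h3
        have h4 : y = z := by
          rw [← edist_eq_zero]; exact le_antisymm h3 bot_le
        rw [h4]; exact mem_closedBall_self (by positivity)
      · set D : ℝ := (ediam (t n)).toReal with hD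
        have hD0 : 0 < D := ENNReal.toReal_pos h0 hrt
        have hDle : D ≤ (1/2)^(n0+1) := by
          rw [hD]
          have := (ENNReal.toReal_le_toReal hrt ENNReal.ofReal_ne_top).2 (hdiam n)
          rwa [ENNReal.toReal_ofReal (by positivity)] at this
        have hD1 : D ≤ 1 := hDle.trans (pow_le_one₀ (by norm_num) (by norm_num))
        obtain ⟨m, hm1, hm2⟩ := exists_nat_pow_near_of_lt_one hD0 hD1
          (show (0:ℝ) < 1/2 by norm_num) (show (1/2:ℝ) < 1 by norm_num)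
        have hmn : n0 ≤ m := by
          have h3 : (1/2:ℝ)^(m+1) < (1/2)^(n0+1) := hm1.trans_le hDle
          have h4 := (pow_lt_pow_iff_right_of_lt_one₀ (show (0:ℝ) < 1/2 by norm_num)
            (by norm_num)).1 h3
          omega
        refine ⟨z, m, ?_, hmn, ?_⟩
        · intro y hy
          have h3 : edist y z ≤ ediam (t n) := edist_le_ediam_of_mem hy hz
          have h4 : dist y z ≤ D := by
            rw [dist_edist, hD]
            exact (ENNReal.toReal_le_toReal (edist_ne_top _ _) hrt).2 h3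
          exact mem_closedBall.2 (h4.trans hm2)
        · have h5 : (⨆ _ : (t n).Nonempty, ediam (t n) ^ d) = ediam (t n) ^ d := by
            simp only [iSup_pos (show (t n).Nonempty from ⟨z, hz⟩)]
          rw [h5]
          have h6 : ediam (t n) ^ d = ENNReal.ofReal (D ^ d) := by
            rw [hD, ENNReal.toReal_rpow, ENNReal.ofReal_toReal]
            exact ENNReal.rpow_ne_top_of_nonneg hd.le hrt
          have h7 : (1/2:ℝ)^(d * m) ≤ 2^d * D^d := by
            rw [← Real.mul_rpow (by norm_num) hD0.le, mul_comm d, Real.rpow_mul (by norm_num),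
              Real.rpow_natCast]
            apply Real.rpow_le_rpow (by positivity) _ hd.le
            rw [pow_succ] at hm1
            linarith
          calc ENNReal.ofReal ((1/2:ℝ)^(d * m)) ≤ ENNReal.ofReal (2^d * D^d) :=
                ENNReal.ofReal_le_ofReal h7
            _ = C * ediam (t n) ^ d := by
                rw [ENNReal.ofReal_mul (by positivity), ← h6]
            _ ≤ _ := le_self_add
  choose z m hz hm hc using key
  refine ⟨z, m, hcov.trans (iUnion_mono hz), hm, ?_⟩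
  calc ∑' i, ENNReal.ofReal ((1/2:ℝ)^(d * m i))
      ≤ ∑' i, (C * (⨆ _ : (t i).Nonempty, ediam (t i) ^ d) + δ i) := ENNReal.tsum_le_tsum hc
    _ = C * (∑' i, ⨆ _ : (t i).Nonempty, ediam (t i) ^ d) + ∑' i, δ i := by
        rw [ENNReal.tsum_add, ENNReal.tsum_mul_left]
    _ ≤ C * (C⁻¹ * (η / 2)) + η / 2 := by
        gcongr
    _ = η := by
        rw [← mul_assoc, ENNReal.mul_inv_cancel hC0 hCt, one_mul, ENNReal.add_halves]

end Pool.Agent.H91.Liou
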