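import Mathlib
import Pool.Agent.H91.Liou.Covers

set_option autoImplicit false

open MeasureTheory Set Filter Topology Metric
open scoped ENNReal NNReal

namespace Pool.Agent.H91.Liou

/-- `X` is captured at rate `s`: there are finite sets `A m` with at most `2^(s m)` points such that
for every `x` in `X` there is `K` for which each window `[n, K n]`, `n ≥ K`, contains a level `m`
with a point of `A m` within `2^(-m)` of `x`. -/
def Captured (s : ℝ) (X : Set ℝ) : Prop :=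
  ∃ A : ℕ → Finset ℝ, (∀ m : ℕ, ((A m).card : ℝ) ≤ (2:ℝ) ^ (s * m)) ∧
    ∀ x ∈ X, ∃ K : ℕ, ∀ n : ℕ, K ≤ n →
      ∃ m : ℕ, n ≤ m ∧ m ≤ K * n ∧ ∃ a ∈ A m, |x - a| ≤ (1/2) ^ m

lemma ediam_prod_le (a z : ℝ) (m p : ℕ) (h : m ≤ p) :
    ediam (closedBall a ((1/2:ℝ)^m) ×ˢ closedBall z ((1/2:ℝ)^p)) ≤
      ENNReal.ofReal (2 * (1/2)^m) := by
  apply ediam_le
  rintro ⟨x, y⟩ ⟨hx, hy⟩ ⟨x', y'⟩ ⟨hx', hy'⟩
  simp only [mem_closedBall] at hx hy hx' hy'
  rw [edist_dist]
  apply ENNReal.ofReal_le_ofReal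
  rw [Prod.dist_eq]
  have h1 : (1/2:ℝ)^p ≤ (1/2)^m := pow_le_pow_of_le_one (by norm_num) (by norm_num) h
  apply max_le
  · calc dist x x' ≤ dist x a + dist x' a := dist_triangle_right _ _ _
      _ ≤ _ := by linarith
  · calc dist y y' ≤ dist y z + dist y' z := dist_triangle_right _ _ _
      _ ≤ _ := by linarith

lemma prod_null_of_level {A : ℕ → Finset ℝ} {s t : ℝ} (hs : 0 ≤ s) (hst : s < t)
    (hA : ∀ m : ℕ, ((A m).card : ℝ) ≤ (2:ℝ) ^ (s * m)) (K : ℕ) (hK : 1 ≤ K) {Y : Set ℝ}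
    (hY : dimH Y = 0) :
    μH[t] ({x : ℝ | ∀ n : ℕ, K ≤ n → ∃ m : ℕ, n ≤ m ∧ m ≤ K * n ∧ ∃ a ∈ A m,
      |x - a| ≤ (1/2) ^ m} ×ˢ Y) = 0 := by
  have ht : 0 < t := lt_of_le_of_lt hs hst
  have hKr : (0:ℝ) < K := by exact_mod_cast hK
  have hts : 0 < t - s := by linarith
  apply hausdorff_zero_of_covers ht
  intro η hη
  set d : ℝ := (t - s) / K with hd
  have hd0 : 0 < d := by positivity
  have hYd : μH[d] Y = 0 := by
    have := hausdorffMeasure_of_dimH_lt (s := Y) (d := d.toNNReal) (by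
      rw [hY]
      simpa using hd0)
    rwa [Real.coe_toNNReal d hd0.le] at this
  set q : ℝ := (1/2:ℝ)^(t - s) with hq
  have hq0 : 0 < q := by positivity
  have hq1 : q < 1 := Real.rpow_lt_one (by norm_num) (by norm_num) hts
  set Q : ℝ≥0∞ := ENNReal.ofReal q with hQ
  have hQ1 : Q < 1 := by
    rw [hQ, ← ENNReal.ofReal_one]; exact (ENNReal.ofReal_lt_ofReal_iff one_pos).2 hq1
  set C : ℝ≥0∞ := ENNReal.ofReal (2^t) * ENNReal.ofReal (2^(t-s)) * (1 - Q)⁻¹ with hC
  have hC0 : C ≠ 0 := by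
    rw [hC]
    simp only [ne_eq, mul_eq_zero, ENNReal.ofReal_eq_zero, ENNReal.inv_eq_zero, not_or, not_le]
    refine ⟨⟨by positivity, by positivity⟩, ?_⟩
    exact ENNReal.sub_ne_top ENNReal.one_ne_top
  have hCt : C ≠ ∞ := by
    rw [hC]
    refine ENNReal.mul_ne_top (ENNReal.mul_ne_top ENNReal.ofReal_ne_top ENNReal.ofReal_ne_top) ?_
    rw [ENNReal.inv_ne_top]
    exact (tsub_pos_of_lt hQ1).ne'
  have hη' : 0 < C⁻¹ * η := ENNReal.mul_pos (ENNReal.inv_ne_zero.2 hCt) hη.ne'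
  obtain ⟨z, p, hz, hp, hsum⟩ := exists_dyadic_cover hd0 hYd hη' (K * K)
  let U : (Σ im : ℕ × ℕ, {a // a ∈ A (p im.1 / K + im.2)}) → Set (ℝ × ℝ) := fun j =>
    if p j.1.1 / K + j.1.2 ≤ p j.1.1 then
      closedBall j.2.1 ((1/2:ℝ)^(p j.1.1 / K + j.1.2)) ×ˢ closedBall (z j.1.1) ((1/2:ℝ)^(p j.1.1))
    else ∅
  refine ⟨(Σ im : ℕ × ℕ, {a // a ∈ A (p im.1 / K + im.2)}), inferInstance, U, ?_, ?_⟩
  · rintro ⟨x, y⟩ ⟨hx, hy⟩
    obtain ⟨i, hi⟩ := mem_iUnion.1 (hz hy)
    have h1 : K ≤ p i / K := (Nat.le_div_iff_mul_le hK).2 (hp i)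
    obtain ⟨m, hm1, hm2, a, ha, hxa⟩ := hx (p i / K) h1
    have hmp : m ≤ p i := hm2.trans (Nat.mul_div_le (p i) K)
    obtain ⟨m', rfl⟩ := Nat.exists_eq_add_of_le hm1
    refine mem_iUnion.2 ⟨⟨(i, m'), ⟨a, ha⟩⟩, ?_⟩
    simp only [U]
    rw [if_pos hmp]
    refine ⟨?_, hi⟩
    rw [mem_closedBall, Real.dist_eq]
    exact hxa
  · have hb : ∀ (i m' : ℕ) (a : {a // a ∈ A (p i / K + m')}),
        ediam (U ⟨(i, m'), a⟩) ^ t ≤
          ENNReal.ofReal (2^t * (1/2)^(t * ((p i / K + m' : ℕ) : ℝ))) := by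
      intro i m' a
      simp only [U]
      split_ifs with h
      · have h1 := ENNReal.rpow_le_rpow (ediam_prod_le a.1 (z i) _ _ h) ht.le
        have h2 : ENNReal.ofReal (2 * (1/2:ℝ)^(p i / K + m')) ^ t =
            ENNReal.ofReal (2^t * (1/2)^(t * ((p i / K + m' : ℕ) : ℝ))) := by
          rw [ENNReal.ofReal_rpow_of_nonneg (by positivity) ht.le,
            Real.mul_rpow (by norm_num) (by positivity), ← Real.rpow_natCast, ← Real.rpow_mul
            (by norm_num), mul_comm _ t]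
        exact h1.trans h2.le
      · simp [ht]
    have hc : ∀ (i m' : ℕ), ∑' a : {a // a ∈ A (p i / K + m')}, ediam (U ⟨(i, m'), a⟩) ^ t ≤
        ENNReal.ofReal (2^t) * Q^(p i / K) * Q^m' := by
      intro i m'
      calc ∑' a : {a // a ∈ A (p i / K + m')}, ediam (U ⟨(i, m'), a⟩) ^ t
          ≤ ∑' a : {a // a ∈ A (p i / K + m')},
            ENNReal.ofReal (2^t * (1/2)^(t * ((p i / K + m' : ℕ) : ℝ))) :=
            ENNReal.tsum_le_tsum (hb i m')
        _ = ((A (p i / K + m')).card : ℝ≥0∞) *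
            ENNReal.ofReal (2^t * (1/2)^(t * ((p i / K + m' : ℕ) : ℝ))) := by
            rw [tsum_fintype]
            simp
        _ ≤ ENNReal.ofReal ((2:ℝ) ^ (s * ((p i / K + m' : ℕ) : ℝ))) *
            ENNReal.ofReal (2^t * (1/2)^(t * ((p i / K + m' : ℕ) : ℝ))) := by
            gcongr
            rw [← ENNReal.ofReal_natCast]
            exact ENNReal.ofReal_le_ofReal (hA _)
        _ = ENNReal.ofReal (2^t) * Q^(p i / K) * Q^m' := by
            rw [mul_assoc, ← pow_add, hQ, ← ENNReal.ofReal_pow hq0.le, ← ENNReal.ofReal_mul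
              (by positivity), ← ENNReal.ofReal_mul (by positivity)]
            congr 1
            rw [hq, ← Real.rpow_natCast, ← Real.rpow_mul (by norm_num)]
            have e1 : (2:ℝ) ^ (s * ((p i / K + m' : ℕ) : ℝ)) =
                (1/2:ℝ) ^ (-(s * ((p i / K + m' : ℕ) : ℝ))) := by
              rw [one_div, Real.inv_rpow (by norm_num), Real.rpow_neg (by norm_num), inv_inv]
            rw [e1]
            have e2 : (1/2:ℝ) ^ (-(s * ((p i / K + m' : ℕ) : ℝ))) *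
                (2^t * (1/2)^(t * ((p i / K + m' : ℕ) : ℝ))) =
                2^t * ((1/2:ℝ) ^ (-(s * ((p i / K + m' : ℕ) : ℝ))) *
                  (1/2)^(t * ((p i / K + m' : ℕ) : ℝ))) := by ring
            rw [e2, ← Real.rpow_add (by norm_num)]
            congr 2
            ring
    calc ∑' j, ediam (U j) ^ t
        = ∑' (im : ℕ × ℕ), ∑' a : {a // a ∈ A (p im.1 / K + im.2)}, ediam (U ⟨im, a⟩) ^ t :=
          ENNReal.tsum_sigma' _
      _ = ∑' (i : ℕ) (m' : ℕ), ∑' a : {a // a ∈ A (p i / K + m')},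
            ediam (U ⟨(i, m'), a⟩) ^ t := ENNReal.tsum_prod'
      _ ≤ ∑' (i : ℕ) (m' : ℕ), ENNReal.ofReal (2^t) * Q^(p i / K) * Q^m' :=
          ENNReal.tsum_le_tsum fun i => ENNReal.tsum_le_tsum fun m' => hc i m'
      _ = ∑' (i : ℕ), ENNReal.ofReal (2^t) * Q^(p i / K) * (1 - Q)⁻¹ := by
          congr 1
          ext i
          rw [ENNReal.tsum_mul_left, ENNReal.tsum_geometric]
      _ ≤ ∑' (i : ℕ), C * ENNReal.ofReal ((1/2:ℝ)^(d * p i)) := by
          apply ENNReal.tsum_le_tsum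
          intro i
          have h1 : Q^(p i / K) ≤ ENNReal.ofReal (2^(t-s)) * ENNReal.ofReal ((1/2:ℝ)^(d * p i)) := by
            rw [hQ, ← ENNReal.ofReal_pow hq0.le, ← ENNReal.ofReal_mul (by positivity)]
            apply ENNReal.ofReal_le_ofReal
            have e1 : (2:ℝ)^(t-s) = (1/2:ℝ)^(-(t-s)) := by
              rw [one_div, Real.inv_rpow (by norm_num), Real.rpow_neg (by norm_num), inv_inv]
            rw [e1, ← Real.rpow_add (by norm_num), hq, ← Real.rpow_natCast,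
              ← Real.rpow_mul (by norm_num)]
            apply Real.rpow_le_rpow_of_exponent_ge (by norm_num) (by norm_num)
            have h2 : (p i : ℝ) / K < ((p i / K : ℕ) : ℝ) + 1 := by
              rw [div_lt_iff₀ hKr]
              have := Nat.lt_div_mul_add (a := p i) (b := K) hK
              have h3 : (p i : ℝ) < (p i / K : ℕ) * K + K := by exact_mod_cast this
              linarith
            rw [hd]
            have h3 : (t - s) / K * (p i : ℝ) = (t - s) * ((p i : ℝ) / K) := by ring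
            rw [h3]
            nlinarith
          calc ENNReal.ofReal (2^t) * Q^(p i / K) * (1 - Q)⁻¹
              ≤ ENNReal.ofReal (2^t) * (ENNReal.ofReal (2^(t-s)) *
                ENNReal.ofReal ((1/2:ℝ)^(d * p i))) * (1 - Q)⁻¹ := by gcongr
            _ = C * ENNReal.ofReal ((1/2:ℝ)^(d * p i)) := by rw [hC]; ring
      _ = C * ∑' (i : ℕ), ENNReal.ofReal ((1/2:ℝ)^(d * p i)) := ENNReal.tsum_mul_left
      _ ≤ C * (C⁻¹ * η) := by gcongr
      _ = η := by rw [← mul_assoc, ENNReal.mul_inv_cancel hC0 hCt, one_mul]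

/-- products of a set captured at rate `s` with sets of dimension zero -/
theorem dimH_prod_le_of_captured {s : ℝ≥0} {X Y : Set ℝ} (hX : Captured s X) (hY : dimH Y = 0) :
    dimH (X ×ˢ Y) ≤ s := by
  obtain ⟨A, hA, hcap⟩ := hX
  have hsub : X ×ˢ Y ⊆ ⋃ K : ℕ, ({x : ℝ | ∀ n : ℕ, K + 1 ≤ n → ∃ m : ℕ, n ≤ m ∧ m ≤ (K + 1) * n ∧
      ∃ a ∈ A m, |x - a| ≤ (1/2) ^ m} ×ˢ Y) := by
    rintro ⟨x, y⟩ ⟨hx, hy⟩
    obtain ⟨K, hK⟩ := hcap x hx
    refine mem_iUnion.2 ⟨K, ?_, hy⟩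
    intro n hn
    obtain ⟨m, h1, h2, h3⟩ := hK n (by omega)
    exact ⟨m, h1, h2.trans (Nat.mul_le_mul_right n (by omega)), h3⟩
  refine (dimH_mono hsub).trans ?_
  rw [dimH_iUnion]
  apply iSup_le
  intro K
  apply le_of_forall_gt
  intro t ht
  rcases eq_or_ne t ∞ with h | h
  · rw [h]
    have := prod_null_of_level (A := A) (s := s) (t := s + 1) s.2 (by linarith) hA (K+1)
      (by omega) hY
    have h2 := dimH_le_of_hausdorffMeasure_ne_top (d := s + 1) (by
      rw [NNReal.coe_add, NNReal.coe_one, this]; exact ENNReal.zero_ne_top)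
    exact lt_of_le_of_lt h2 ENNReal.coe_lt_top
  · lift t to ℝ≥0 using h
    have hst : s < t := by exact_mod_cast ht
    obtain ⟨t', ht1, ht2⟩ := exists_between hst
    have := prod_null_of_level (A := A) (s := s) (t := t') s.2 (by exact_mod_cast ht1) hA (K+1)
      (by omega) hY
    have h2 := dimH_le_of_hausdorffMeasure_ne_top (d := t') (by
      rw [this]; exact ENNReal.zero_ne_top)
    exact lt_of_le_of_lt h2 (by exact_mod_cast ht2)

end Pool.Agent.H91.Liou
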