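import Mathlib
import Pool.Agent.H91.Liou.Upper

set_option autoImplicit false

open MeasureTheory Set Filter Topology Metric
open scoped ENNReal NNReal Pointwise

namespace Pool.Agent.H91.Liou

lemma exists_poly_le {ε : ℝ} (hε : 0 < ε) :
    ∃ m0 : ℕ, ∀ m : ℕ, m0 ≤ m → 4 * ((m:ℝ) + 1)^2 ≤ (2:ℝ) ^ (ε * m) := by
  have hr : (1:ℝ) < 2 ^ ε := Real.one_lt_rpow (by norm_num) hε
  have h1 := tendsto_pow_const_div_const_pow_of_one_lt 2 hr
  have h2 := (h1.eventually (gt_mem_nhds (show (0:ℝ) < 1/16 by norm_num))).and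
    (eventually_ge_atTop 1)
  obtain ⟨m0, hm0⟩ := eventually_atTop.1 h2
  refine ⟨m0, fun m hm => ?_⟩
  obtain ⟨h3, h4⟩ := hm0 m hm
  have hpos : (0:ℝ) < ((2:ℝ)^ε)^m := by positivity
  rw [div_lt_iff₀ hpos] at h3
  rw [Real.rpow_mul (by norm_num), Real.rpow_natCast]
  have h5 : (1:ℝ) ≤ m := by exact_mod_cast h4
  nlinarith

lemma captured_univ {s : ℝ} (hs : 1 < s) : Captured s univ := by
  obtain ⟨m0, hm0⟩ := exists_poly_le (show 0 < s - 1 by linarith)
  classical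
  refine ⟨fun m => if m0 ≤ m then
    (Finset.Icc (-((m:ℤ) * 2^m)) ((m:ℤ) * 2^m)).image (fun j : ℤ => (j:ℝ) / 2^m) else ∅, ?_, ?_⟩
  · intro m
    dsimp only
    split_ifs with h
    · have h1 : (((Finset.Icc (-((m:ℤ) * 2^m)) ((m:ℤ) * 2^m)).image
          (fun j : ℤ => (j:ℝ) / 2^m)).card : ℝ) ≤ 2 * m * 2^m + 1 := by
        have h2 := Finset.card_image_le (s := Finset.Icc (-((m:ℤ) * 2^m)) ((m:ℤ) * 2^m))
          (f := fun j : ℤ => (j:ℝ) / 2^m)
        rw [Int.card_Icc] at h2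
        have h3 : ((((m:ℤ) * 2^m + 1 - (-((m:ℤ) * 2^m))).toNat : ℕ) : ℝ) = 2 * m * 2^m + 1 := by
          have h4 : (((m:ℤ) * 2^m + 1 - (-((m:ℤ) * 2^m))).toNat : ℤ) = 2 * m * 2^m + 1 := by
            have h5 : (0:ℤ) ≤ (m:ℤ) * 2^m := by positivity
            rw [Int.toNat_of_nonneg (by linarith)]; ring
          exact_mod_cast h4
        rw [← h3]
        exact_mod_cast h2
      have h2 := hm0 m h
      have h3 : (2:ℝ) ^ (s * m) = (2:ℝ)^((s-1) * m) * 2^m := by
        rw [← Real.rpow_natCast 2 m, ← Real.rpow_add (by norm_num)]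
        congr 1
        ring
      rw [h3]
      have h4 : (1:ℝ) ≤ 2^m := one_le_pow₀ (by norm_num)
      have h5 : (0:ℝ) ≤ m := Nat.cast_nonneg m
      calc _ ≤ 2 * (m:ℝ) * 2^m + 1 := h1
        _ ≤ (4 * ((m:ℝ) + 1)^2) * 2^m := by nlinarith
        _ ≤ _ := by gcongr
    · simp only [Finset.card_empty, CharP.cast_eq_zero]; positivity
  · intro x _
    obtain ⟨N, hN⟩ := exists_nat_ge |x|
    refine ⟨max (max N m0) 1, fun n hn => ⟨n, le_rfl, ?_, ?_⟩⟩
    · have : 1 ≤ max (max N m0) 1 := le_max_right _ _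
      nlinarith
    · have h1 : m0 ≤ n := (le_max_right N m0).trans ((le_max_left _ _).trans hn)
      have h2 : N ≤ n := (le_max_left N m0).trans ((le_max_left _ _).trans hn)
      dsimp only
      rw [if_pos h1]
      have hp : (0:ℝ) < 2^n := by positivity
      have hxn : |x| ≤ n := hN.trans (by exact_mod_cast h2)
      obtain ⟨hx1, hx2⟩ := abs_le.1 hxn
      refine ⟨(⌊x * 2^n⌋ : ℝ) / 2^n, ?_, ?_⟩
      · rw [Finset.mem_image]
        refine ⟨⌊x * 2^n⌋, ?_, rfl⟩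
        rw [Finset.mem_Icc]
        constructor
        · rw [Int.le_floor]
          push_cast
          nlinarith
        · have : (⌊x * 2^n⌋ : ℝ) ≤ n * 2^n := (Int.floor_le _).trans (by nlinarith)
          exact_mod_cast this
      · have h3 := Int.floor_le (x * 2^n)
        have h4 := Int.lt_floor_add_one (x * 2^n)
        have e : x - (⌊x * 2^n⌋ : ℝ) / 2^n = (x * 2^n - ⌊x * 2^n⌋) / 2^n := by
          field_simp
        rw [e, abs_div, abs_of_pos hp, div_le_iff₀ hp, one_div, inv_pow, inv_mul_cancel₀ hp.ne',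
          abs_le]
        constructor <;> linarith

lemma liouville_null (N : ℕ) {t : ℝ} (ht : 0 < t) :
    μH[t] ({y : ℝ | Liouville y} ∩ {y | |y| ≤ N}) = 0 := by
  apply hausdorff_zero_of_covers ht
  intro η hη
  set S : ℝ≥0∞ := ∑' b : ℕ, ENNReal.ofReal (1 / ((b:ℝ) + 2)^2) with hS
  have hSt : S ≠ ∞ := by
    have h1 : Summable (fun b : ℕ => 1 / ((b:ℝ) + 2)^2) := by
      have h2 := (summable_nat_add_iff 2).2 (Real.summable_one_div_nat_pow.2 one_lt_two)
      refine h2.congr fun b => ?_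
      push_cast
      ring
    exact h1.tsum_ofReal_ne_top
  set C : ℝ≥0∞ := ENNReal.ofReal ((2 * N + 3) * 2^t) with hC
  have hCS : C * S ≠ ∞ := ENNReal.mul_ne_top ENNReal.ofReal_ne_top hSt
  -- choose M
  obtain ⟨M, hM⟩ : ∃ M : ℕ, C * S * ENNReal.ofReal ((1/2:ℝ)^M) ≤ η := by
    have hQ : ENNReal.ofReal (1/2:ℝ) < 1 := by
      rw [← ENNReal.ofReal_one]; exact (ENNReal.ofReal_lt_ofReal_iff one_pos).2 (by norm_num)
    have h1 := ENNReal.tendsto_pow_atTop_nhds_zero_of_lt_one hQ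
    have h2 : Tendsto (fun M : ℕ => C * S * ENNReal.ofReal (1/2:ℝ)^M) atTop (𝓝 (C * S * 0)) :=
      ENNReal.Tendsto.const_mul h1 (Or.inr hCS)
    rw [mul_zero] at h2
    obtain ⟨M, hM⟩ := (h2.eventually (gt_mem_nhds hη)).exists
    refine ⟨M, ?_⟩
    rw [ENNReal.ofReal_pow (by norm_num)]
    exact hM.le
  obtain ⟨P, hP⟩ := exists_nat_ge ((3 + M) / t)
  have hPt : (3 + M : ℝ) ≤ P * t := by rwa [div_le_iff₀ ht] at hP
  let B : ℕ → Finset ℤ := fun b =>
    Finset.Icc (-(((N:ℤ) + 1) * ((b:ℤ) + 2))) (((N:ℤ) + 1) * ((b:ℤ) + 2))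
  let U : (Σ b : ℕ, {a : ℤ // a ∈ B b}) → Set ℝ := fun j => closedBall ((j.2.1 : ℝ) / ((j.1:ℝ) + 2)) (1 / ((j.1:ℝ) + 2)^P)
  refine ⟨_, inferInstance, U, ?_, ?_⟩
  · rintro y ⟨hy, hyN⟩
    have hyN' : |y| ≤ N := hyN
    obtain ⟨a, b, hb, -, hab⟩ := hy P
    obtain ⟨b', rfl⟩ : ∃ b' : ℕ, b = (b':ℤ) + 2 := ⟨(b - 2).toNat, by omega⟩
    have hb0 : (0:ℝ) < (b':ℝ) + 2 := by positivity
    push_cast at hab
    have h1 : 1 / ((b':ℝ) + 2)^P ≤ 1 := by
      rw [div_le_one (by positivity)]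
      exact one_le_pow₀ (by linarith)
    have h2 : |(a:ℝ) / ((b':ℝ) + 2)| ≤ N + 1 := by
      have h3 : |(a:ℝ) / ((b':ℝ) + 2)| ≤ |y| + |y - (a:ℝ) / ((b':ℝ) + 2)| := by
        have := abs_sub_abs_le_abs_sub ((a:ℝ) / ((b':ℝ) + 2)) y
        rw [abs_sub_comm] at this
        linarith
      linarith
    rw [abs_div, abs_of_pos hb0, div_le_iff₀ hb0, abs_le] at h2
    refine mem_iUnion.2 ⟨⟨b', ⟨a, ?_⟩⟩, ?_⟩
    · simp only [B]
      rw [Finset.mem_Icc]
      constructor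
      · have := h2.1
        have h5 : ((-(((N:ℤ) + 1) * (b' + 2)) : ℤ) : ℝ) ≤ ((a:ℤ):ℝ) := by push_cast; linarith
        exact_mod_cast h5
      · have := h2.2
        have h5 : ((a:ℤ):ℝ) ≤ ((((N:ℤ) + 1) * (b' + 2) : ℤ) : ℝ) := by push_cast; linarith
        exact_mod_cast h5
    · simp only [U]
      rw [mem_closedBall, Real.dist_eq]
      exact hab.le
  · have hb : ∀ (b : ℕ) (a : {a : ℤ // a ∈ B b}), ediam (U ⟨b, a⟩) ^ t ≤
        ENNReal.ofReal (2^t * ((1/2)^M * (1 / ((b:ℝ) + 2)^3))) := by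
      intro b a
      have hb0 : (0:ℝ) < (b:ℝ) + 2 := by positivity
      have h1 : ediam (U ⟨b, a⟩) ≤ ENNReal.ofReal (2 * (1 / ((b:ℝ) + 2)^P)) := by
        simp only [U]
        apply ediam_le
        intro x hx y hy
        rw [mem_closedBall] at hx hy
        rw [edist_dist]
        apply ENNReal.ofReal_le_ofReal
        calc dist x y ≤ dist x _ + dist y _ := dist_triangle_right _ _ ((a.1:ℝ) / ((b:ℝ) + 2))
          _ ≤ _ := by linarith
      have h2 := ENNReal.rpow_le_rpow h1 ht.le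
      refine h2.trans ?_
      rw [ENNReal.ofReal_rpow_of_nonneg (by positivity) ht.le]
      apply ENNReal.ofReal_le_ofReal
      rw [Real.mul_rpow (by norm_num) (by positivity)]
      gcongr
      have h3 : (1 / ((b:ℝ) + 2)^P)^t = ((b:ℝ) + 2)^(-(P * t)) := by
        rw [one_div, Real.inv_rpow (by positivity), ← Real.rpow_natCast, ← Real.rpow_mul hb0.le,
          Real.rpow_neg hb0.le]
      rw [h3]
      have h4 : ((b:ℝ) + 2)^(-(P * t)) ≤ ((b:ℝ) + 2)^(-(((3 + M : ℕ)) : ℝ)) := by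
        apply Real.rpow_le_rpow_of_exponent_le (by linarith)
        push_cast
        linarith
      refine h4.trans ?_
      rw [Real.rpow_neg hb0.le, Real.rpow_natCast, pow_add, mul_inv, mul_comm, one_div ((b + 2 : ℝ)^3)]
      gcongr
      rw [one_div, inv_pow]
      gcongr
      linarith
    have hcard : ∀ b : ℕ, ((Fintype.card {a : ℤ // a ∈ B b} : ℕ) : ℝ≥0∞) ≤ ENNReal.ofReal ((2 * N + 3) * ((b:ℝ) + 2)) := by
      intro b
      rw [Fintype.card_coe, Int.card_Icc, ← ENNReal.ofReal_natCast]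
      apply ENNReal.ofReal_le_ofReal
      have h6 : (0:ℤ) ≤ ((N:ℤ) + 1) * (b + 2) := by positivity
      have h4 : (((((N:ℤ) + 1) * (b + 2) + 1 - (-(((N:ℤ) + 1) * (b + 2)))).toNat : ℕ) : ℤ) =
          2 * (((N:ℤ) + 1) * (b + 2)) + 1 := by
        rw [Int.toNat_of_nonneg (by linarith)]; ring
      have h5 : (((((N:ℤ) + 1) * (b + 2) + 1 - (-(((N:ℤ) + 1) * (b + 2)))).toNat : ℕ) : ℝ) =
          2 * (((N:ℝ) + 1) * (b + 2)) + 1 := by exact_mod_cast h4
      rw [h5]
      have : (0:ℝ) ≤ b := Nat.cast_nonneg b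
      nlinarith
    calc ∑' j, ediam (U j) ^ t
        = ∑' (b : ℕ), ∑' a : {a : ℤ // a ∈ B b}, ediam (U ⟨b, a⟩) ^ t := ENNReal.tsum_sigma' _
      _ ≤ ∑' (b : ℕ), C * ENNReal.ofReal ((1/2)^M) * ENNReal.ofReal (1 / ((b:ℝ) + 2)^2) := by
          apply ENNReal.tsum_le_tsum
          intro b
          calc ∑' a : {a : ℤ // a ∈ B b}, ediam (U ⟨b, a⟩) ^ t
              ≤ ∑' a : {a : ℤ // a ∈ B b}, ENNReal.ofReal (2^t * ((1/2)^M * (1 / ((b:ℝ) + 2)^3))) :=
                ENNReal.tsum_le_tsum (hb b)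
            _ = ((Fintype.card {a : ℤ // a ∈ B b} : ℕ) : ℝ≥0∞) *
                ENNReal.ofReal (2^t * ((1/2)^M * (1 / ((b:ℝ) + 2)^3))) := by
                rw [tsum_fintype, Finset.sum_const, Finset.card_univ, nsmul_eq_mul]
            _ ≤ ENNReal.ofReal ((2 * N + 3) * ((b:ℝ) + 2)) *
                ENNReal.ofReal (2^t * ((1/2)^M * (1 / ((b:ℝ) + 2)^3))) := by
                gcongr
                exact hcard b
            _ = C * ENNReal.ofReal ((1/2)^M) * ENNReal.ofReal (1 / ((b:ℝ) + 2)^2) := by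
                rw [hC, ← ENNReal.ofReal_mul (by positivity), ← ENNReal.ofReal_mul (by positivity),
                  ← ENNReal.ofReal_mul (by positivity)]
                congr 1
                have hb0 : ((b:ℝ) + 2) ≠ 0 := by positivity
                field_simp
      _ = C * ENNReal.ofReal ((1/2)^M) * S := by rw [ENNReal.tsum_mul_left]
      _ = C * S * ENNReal.ofReal ((1/2:ℝ)^M) := by ring
      _ ≤ η := hM

/-- the set of Liouville numbers has Hausdorff dimension zero -/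
theorem dimH_liouville : dimH {y : ℝ | Liouville y} = 0 := by
  have hsub : {y : ℝ | Liouville y} ⊆ ⋃ N : ℕ, ({y : ℝ | Liouville y} ∩ {y | |y| ≤ N}) := by
    intro y hy
    obtain ⟨N, hN⟩ := exists_nat_ge |y|
    exact mem_iUnion.2 ⟨N, hy, hN⟩
  refine le_antisymm ((dimH_mono hsub).trans ?_) bot_le
  rw [dimH_iUnion]
  apply iSup_le
  intro N
  apply le_of_forall_gt
  intro t ht
  rcases eq_or_ne t ∞ with h | h
  · rw [h]
    have := liouville_null N (t := 1) one_pos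
    have h2 := dimH_le_of_hausdorffMeasure_ne_top (d := 1) (by
      rw [NNReal.coe_one, this]; exact ENNReal.zero_ne_top)
    exact lt_of_le_of_lt h2 ENNReal.coe_lt_top
  · lift t to ℝ≥0 using h
    have hst : 0 < t := by exact_mod_cast ht
    obtain ⟨t', ht1, ht2⟩ := exists_between hst
    have := liouville_null N (t := t') (by exact_mod_cast ht1)
    have h2 := dimH_le_of_hausdorffMeasure_ne_top (d := t') (by
      rw [this]; exact ENNReal.zero_ne_top)
    exact lt_of_le_of_lt h2 (by exact_mod_cast ht2)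

/-- sums are no larger than products -/
theorem dimH_add_le (X Y : Set ℝ) : dimH (X + Y) ≤ dimH (X ×ˢ Y) := by
  have h : LipschitzWith 2 (fun p : ℝ × ℝ => p.1 + p.2) := by
    have h1 := (LipschitzWith.prod_fst (α := ℝ) (β := ℝ)).add
      (LipschitzWith.prod_snd (α := ℝ) (β := ℝ))
    have h2 : (1:ℝ≥0) + 1 = 2 := by norm_num
    rwa [h2] at h1
  have h2 := h.dimH_image_le (X ×ˢ Y)
  rwa [Set.add_image_prod] at h2

end Pool.Agent.H91.Liou
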