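import Mathlib
import Pool.Agent.H91.Liou.LiouDim

set_option autoImplicit false

open MeasureTheory Set Filter Topology Metric
open scoped ENNReal NNReal Pointwise

namespace Pool.Agent.H91.Liou

/-- the total mass of the (doubled) balls of the cover of level at least `k` -/
noncomputable def nu (z : ℕ → ℝ) (p : ℕ → ℕ) (k : ℕ) : Measure ℝ :=
  Measure.sum (fun i : ℕ => if k ≤ p i then
    (volume : Measure ℝ).restrict (closedBall (z i) (2 * (1/2)^(p i))) else 0)

lemma nu_univ_le {z : ℕ → ℝ} {p : ℕ → ℕ} {d : ℝ} (hd1 : d < 1)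
    (hsum : ∑' i, ENNReal.ofReal ((1/2:ℝ)^(d * p i)) ≤ ENNReal.ofReal (1/16)) (k : ℕ) :
    nu z p k univ ≤ ENNReal.ofReal ((1/4) * (1/2)^((1-d) * k)) := by
  rw [nu, Measure.sum_apply _ MeasurableSet.univ]
  calc ∑' i, (if k ≤ p i then
        (volume : Measure ℝ).restrict (closedBall (z i) (2 * (1/2)^(p i))) else 0) univ
      ≤ ∑' i, ENNReal.ofReal (4 * (1/2)^((1-d) * k)) * ENNReal.ofReal ((1/2:ℝ)^(d * p i)) := by
        apply ENNReal.tsum_le_tsum
        intro i
        split_ifs with h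
        · rw [Measure.restrict_apply MeasurableSet.univ, univ_inter, Real.volume_closedBall,
            ← ENNReal.ofReal_mul (by positivity)]
          apply ENNReal.ofReal_le_ofReal
          have h1 : (1/2:ℝ)^(p i) = (1/2:ℝ)^((1-d) * p i) * (1/2:ℝ)^(d * p i) := by
            rw [← Real.rpow_add (by norm_num), ← Real.rpow_natCast]
            congr 1; ring
          have h2 : (1/2:ℝ)^((1-d) * p i) ≤ (1/2:ℝ)^((1-d) * k) := by
            apply Real.rpow_le_rpow_of_exponent_ge (by norm_num) (by norm_num)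
            have : (k:ℝ) ≤ p i := by exact_mod_cast h
            nlinarith
          have h3 : (0:ℝ) ≤ (1/2:ℝ)^(d * p i) := by positivity
          rw [h1]
          nlinarith
        · simp
    _ = ENNReal.ofReal (4 * (1/2)^((1-d) * k)) * ∑' i, ENNReal.ofReal ((1/2:ℝ)^(d * p i)) :=
        ENNReal.tsum_mul_left
    _ ≤ ENNReal.ofReal (4 * (1/2)^((1-d) * k)) * ENNReal.ofReal (1/16) := by gcongr
    _ = ENNReal.ofReal ((1/4) * (1/2)^((1-d) * k)) := by
        rw [← ENNReal.ofReal_mul (by positivity)]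
        congr 1; ring

lemma nu_avoid {z : ℕ → ℝ} {p : ℕ → ℕ} {k q i : ℕ} {u y : ℝ} (hk : k ≤ p i) (hq : p i ≤ q)
    [IsFiniteMeasure (nu z p k)]
    (h : (nu z p k).real (Ico u (u + (1/2)^q)) ≤ (1/2) * (1/2)^q)
    (hy : y ∈ Icc u (u + (1/2)^q)) : (1/2)^(p i) < |y - z i| := by
  by_contra hcon
  have hcon' := not_lt.1 hcon
  have hpq : (1/2:ℝ)^q ≤ (1/2)^(p i) := pow_le_pow_of_le_one (by norm_num) (by norm_num) hq
  have hsub : Ico u (u + (1/2)^q) ⊆ closedBall (z i) (2 * (1/2)^(p i)) := by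
    intro v hv
    rw [mem_closedBall, Real.dist_eq]
    have h1 : |v - y| ≤ (1/2)^q := by
      rw [abs_le]; constructor
      · linarith [hv.1, hy.2]
      · linarith [hv.2, hy.1]
    have h2 := abs_add_le (v - y) (y - z i)
    have h3 : v - y + (y - z i) = v - z i := by ring
    rw [h3] at h2
    linarith
  have h1 : (if k ≤ p i then
      (volume : Measure ℝ).restrict (closedBall (z i) (2 * (1/2)^(p i))) else 0) ≤ nu z p k :=
    Measure.le_sum (fun i : ℕ => if k ≤ p i then
      (volume : Measure ℝ).restrict (closedBall (z i) (2 * (1/2)^(p i))) else 0) i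
  rw [if_pos hk] at h1
  have h2 := h1 (Ico u (u + (1/2)^q))
  rw [Measure.restrict_apply measurableSet_Ico, inter_eq_left.2 hsub, Real.volume_Ico] at h2
  have h3 : (1/2:ℝ)^q ≤ (nu z p k).real (Ico u (u + (1/2)^q)) := by
    rw [Measure.real]
    have h4 := (ENNReal.toReal_le_toReal ENNReal.ofReal_ne_top (measure_ne_top _ _)).2 h2
    rw [ENNReal.toReal_ofReal (by simp)] at h4
    linarith
  have h4 : (0:ℝ) < (1/2)^q := by positivity
  linarith

/-- a bounded separated family has a finite net -/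
lemma exists_net (C : Set ℝ) {δ : ℝ} (hδ : 0 ≤ δ) (N : ℕ)
    (h : ∀ F : Finset ℝ, (∀ a ∈ F, a ∈ C) → (∀ a ∈ F, ∀ b ∈ F, a ≠ b → δ < |a - b|) → F.card ≤ N) :
    ∃ F : Finset ℝ, F.card ≤ N ∧ ∀ x ∈ C, ∃ a ∈ F, |x - a| ≤ δ := by
  classical
  let P : ℕ → Prop := fun n => ∃ F : Finset ℝ, (∀ a ∈ F, a ∈ C) ∧
    (∀ a ∈ F, ∀ b ∈ F, a ≠ b → δ < |a - b|) ∧ F.card = n
  have hP0 : P 0 := ⟨∅, by simp, by simp, rfl⟩
  have hPn : P (Nat.findGreatest P N) := Nat.findGreatest_spec (Nat.zero_le _) hP0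
  obtain ⟨F, hF1, hF2, hF3⟩ := hPn
  refine ⟨F, h F hF1 hF2, ?_⟩
  intro x hx
  by_contra hcon
  push Not at hcon
  have hxF : x ∉ F := by
    intro hxF
    have h1 := hcon x hxF
    simp only [sub_self, abs_zero] at h1
    linarith
  have hins : P (F.card + 1) := by
    refine ⟨insert x F, ?_, ?_, Finset.card_insert_of_notMem hxF⟩
    · intro a ha
      rcases Finset.mem_insert.1 ha with rfl | ha
      · exact hx
      · exact hF1 a ha
    · intro a ha b hb hab
      rcases Finset.mem_insert.1 ha with ha' | ha' <;> rcases Finset.mem_insert.1 hb with hb' | hb'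
      · exact absurd (ha'.trans hb'.symm) hab
      · rw [ha']; exact hcon b hb'
      · rw [abs_sub_comm, hb']; exact hcon a ha'
      · exact hF2 a ha' b hb' hab
  have hle : F.card + 1 ≤ N := by
    obtain ⟨G, hG1, hG2, hG3⟩ := hins
    rw [← hG3]; exact h G hG1 hG2
  have := Nat.le_findGreatest hle hins
  omega

end Pool.Agent.H91.Liou
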