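import Mathlib
import Pool.Agent.H91.Liou.Nu

set_option autoImplicit false

open MeasureTheory Set Filter Topology Metric
open scoped ENNReal NNReal Pointwise

namespace Pool.Agent.H91.Liou

/-- indices of the level-`n` cells inside the level-`ℓ` cell number `j` -/
def cells (n ℓ j : ℕ) : Finset ℕ := Finset.Ico (j * 2^(n-ℓ)) ((j+1) * 2^(n-ℓ))

lemma card_cells (n ℓ j : ℕ) : (cells n ℓ j).card = 2^(n-ℓ) := by
  rw [cells, Nat.card_Ico, Nat.add_mul, one_mul, Nat.add_sub_cancel_left]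

open Classical in
/-- starting points of heavy level-`k` cells -/
noncomputable def Bl (z : ℕ → ℝ) (p : ℕ → ℕ) (x : ℝ) (n ℓ j k : ℕ) : Finset ℕ :=
  (cells n ℓ j).filter (fun t : ℕ =>
    (1/4) * (1/2:ℝ)^k < (nu z p k).real (Ico (x + (t:ℝ)/2^n) (x + (t:ℝ)/2^n + (1/2)^k)))

/-- points with many heavy cells -/
def Cap (z : ℕ → ℝ) (p : ℕ → ℕ) (c : ℝ) (n ℓ j k : ℕ) : Set ℝ :=
  {x | c * 2^(n-ℓ) ≤ ((Bl z p x n ℓ j k).card : ℝ)}

lemma nu_finite {z : ℕ → ℝ} {p : ℕ → ℕ} {d : ℝ} (hd1 : d < 1)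
    (hsum : ∑' i, ENNReal.ofReal ((1/2:ℝ)^(d * p i)) ≤ ENNReal.ofReal (1/16)) (k : ℕ) :
    IsFiniteMeasure (nu z p k) :=
  ⟨(nu_univ_le hd1 hsum k).trans_lt ENNReal.ofReal_lt_top⟩

lemma nu_real_univ_le {z : ℕ → ℝ} {p : ℕ → ℕ} {d : ℝ} (hd1 : d < 1)
    (hsum : ∑' i, ENNReal.ofReal ((1/2:ℝ)^(d * p i)) ≤ ENNReal.ofReal (1/16)) (k : ℕ) :
    (nu z p k).real univ ≤ (1/4) * (1/2)^((1-d) * k) := by
  have h := nu_univ_le (z := z) hd1 hsum k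
  have := nu_finite (z := z) hd1 hsum k
  rw [Measure.real]
  have h4 := (ENNReal.toReal_le_toReal (measure_ne_top _ _) ENNReal.ofReal_ne_top).2 h
  rwa [ENNReal.toReal_ofReal (by positivity)] at h4

lemma card_sep {z : ℕ → ℝ} {p : ℕ → ℕ} {d : ℝ} (hd1 : d < 1)
    (hsum : ∑' i, ENNReal.ofReal ((1/2:ℝ)^(d * p i)) ≤ ENNReal.ofReal (1/16))
    {c : ℝ} (hc : 0 < c) (n ℓ j k : ℕ) (F : Finset ℝ) (hF : ∀ a ∈ F, a ∈ Cap z p c n ℓ j k)
    (hsep : ∀ a ∈ F, ∀ b ∈ F, a ≠ b → (1/2)^k < |a - b|) :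
    (F.card : ℝ) ≤ 2^(d * k) / c := by
  have := nu_finite (z := z) hd1 hsum k
  set ν := nu z p k with hν
  have hreal := nu_real_univ_le (z := z) hd1 hsum k
  rw [← hν] at hreal
  have h1 : ∀ t : ℕ, ∑ a ∈ F, ν.real (Ico (a + (t:ℝ)/2^n) (a + (t:ℝ)/2^n + (1/2)^k)) ≤
      (1/4) * (1/2)^((1-d) * k) := by
    intro t
    rw [← measureReal_biUnion_finset (μ := ν)]
    · exact (measureReal_mono (subset_univ _)).trans hreal
    · intro a ha b hb hab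
      have h2 := hsep a ha b hb hab
      rw [Function.onFun, Set.disjoint_left]
      intro v hv1 hv2
      have h3 : |a - b| < (1/2)^k := by
        rw [abs_lt]
        constructor
        · linarith [hv1.2, hv2.1]
        · linarith [hv1.1, hv2.2]
      linarith
    · intro b _
      exact measurableSet_Ico
  have h2 : ∀ a ∈ F, (c * 2^(n-ℓ)) * ((1/4) * (1/2)^k) ≤
      ∑ t ∈ cells n ℓ j, ν.real (Ico (a + (t:ℝ)/2^n) (a + (t:ℝ)/2^n + (1/2)^k)) := by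
    intro a ha
    have h3 : c * 2^(n-ℓ) ≤ ((Bl z p a n ℓ j k).card : ℝ) := hF a ha
    have hpos : (0:ℝ) < (1/4) * (1/2)^k := by positivity
    calc (c * 2^(n-ℓ)) * ((1/4) * (1/2)^k)
        ≤ ((Bl z p a n ℓ j k).card : ℝ) * ((1/4) * (1/2)^k) := by gcongr
      _ = ∑ _t ∈ Bl z p a n ℓ j k, (1/4) * (1/2:ℝ)^k := by
          rw [Finset.sum_const, nsmul_eq_mul]
      _ ≤ ∑ t ∈ Bl z p a n ℓ j k, ν.real (Ico (a + (t:ℝ)/2^n) (a + (t:ℝ)/2^n + (1/2)^k)) := by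
          apply Finset.sum_le_sum
          intro t ht
          rw [Bl, Finset.mem_filter] at ht
          exact ht.2.le
      _ ≤ _ := by
          apply Finset.sum_le_sum_of_subset_of_nonneg
          · rw [Bl]; exact Finset.filter_subset _ _
          · intro t _ _
            exact measureReal_nonneg
  have h3 : (F.card : ℝ) * ((c * 2^(n-ℓ)) * ((1/4) * (1/2)^k)) ≤
      2^(n-ℓ) * ((1/4) * (1/2)^((1-d) * k)) := by
    calc (F.card : ℝ) * ((c * 2^(n-ℓ)) * ((1/4) * (1/2)^k))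
        = ∑ _a ∈ F, (c * 2^(n-ℓ)) * ((1/4) * (1/2)^k) := by
          rw [Finset.sum_const, nsmul_eq_mul]
      _ ≤ ∑ a ∈ F, ∑ t ∈ cells n ℓ j, ν.real (Ico (a + (t:ℝ)/2^n) (a + (t:ℝ)/2^n + (1/2)^k)) :=
          Finset.sum_le_sum h2
      _ = ∑ t ∈ cells n ℓ j, ∑ a ∈ F, ν.real (Ico (a + (t:ℝ)/2^n) (a + (t:ℝ)/2^n + (1/2)^k)) :=
          Finset.sum_comm
      _ ≤ ∑ _t ∈ cells n ℓ j, (1/4) * (1/2)^((1-d) * k) := Finset.sum_le_sum fun t _ => h1 t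
      _ = _ := by
          rw [Finset.sum_const, nsmul_eq_mul, card_cells]; push_cast; ring
  have h4 : (1/2:ℝ)^((1-d) * k) = (1/2)^k * 2^(d * k) := by
    have e1 : (2:ℝ) ^ (d * k) = (1/2:ℝ) ^ (-(d * k)) := by
      rw [one_div, Real.inv_rpow (by norm_num), Real.rpow_neg (by norm_num), inv_inv]
    rw [e1, ← Real.rpow_natCast, ← Real.rpow_add (by norm_num)]
    congr 1; ring
  rw [h4] at h3
  rw [le_div_iff₀ hc]
  have hpos : (0:ℝ) < 2^(n-ℓ) * ((1/4) * (1/2)^k) := by positivity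
  have h5 : ((F.card : ℝ) * c) * (2^(n-ℓ) * ((1/4) * (1/2)^k)) ≤
      2^(d * k) * (2^(n-ℓ) * ((1/4) * (1/2)^k)) := by
    calc _ = (F.card : ℝ) * ((c * 2^(n-ℓ)) * ((1/4) * (1/2)^k)) := by ring
      _ ≤ _ := h3
      _ = _ := by ring
  exact le_of_mul_le_mul_right h5 hpos

lemma half_pow_eq {ℓ n : ℕ} (h : ℓ ≤ n) : (1/2:ℝ)^ℓ = 2^(n-ℓ) * (1/2)^n := by
  obtain ⟨m, rfl⟩ := Nat.exists_eq_add_of_le h
  rw [Nat.add_sub_cancel_left, pow_add]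
  have h2 : (2:ℝ)^m * (1/2)^m = 1 := by rw [← mul_pow]; norm_num
  calc (1/2:ℝ)^ℓ = (1/2)^ℓ * (2^m * (1/2)^m) := by rw [h2, mul_one]
    _ = _ := by ring

lemma cell_left {ℓ n j t : ℕ} (h : ℓ ≤ n) (ht : j * 2^(n-ℓ) ≤ t) : (j:ℝ)/2^ℓ ≤ (t:ℝ)/2^n := by
  have h1 : ((j * 2^(n-ℓ) : ℕ) : ℝ) ≤ t := by exact_mod_cast ht
  push_cast at h1
  have h2 : (2:ℝ)^n = 2^(n-ℓ) * 2^ℓ := by rw [← pow_add]; congr 1; omega
  rw [h2, div_le_div_iff₀ (by positivity) (by positivity)]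
  have h3 : (0:ℝ) < 2^ℓ := by positivity
  calc (j:ℝ) * (2^(n-ℓ) * 2^ℓ) = (j * 2^(n-ℓ)) * 2^ℓ := by ring
    _ ≤ t * 2^ℓ := by gcongr

lemma cell_right {ℓ n j t : ℕ} (h : ℓ ≤ n) (ht : t < (j+1) * 2^(n-ℓ)) :
    (t:ℝ)/2^n + (1/2)^n ≤ (j:ℝ)/2^ℓ + (1/2)^ℓ := by
  have h1 : ((t + 1 : ℕ) : ℝ) ≤ (((j+1) * 2^(n-ℓ) : ℕ) : ℝ) := by exact_mod_cast ht
  push_cast at h1
  have h2 : (2:ℝ)^n = 2^(n-ℓ) * 2^ℓ := by rw [← pow_add]; congr 1; omega
  have h3 : (0:ℝ) < 2^ℓ := by positivity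
  have e1 : (t:ℝ)/2^n + (1/2)^n = (t + 1)/2^n := by rw [one_div_pow]; ring
  have e2 : (j:ℝ)/2^ℓ + (1/2)^ℓ = (j + 1)/2^ℓ := by rw [one_div_pow]; ring
  rw [e1, e2, h2, div_le_div_iff₀ (by positivity) (by positivity)]
  calc ((t:ℝ) + 1) * 2^ℓ ≤ ((j + 1) * 2^(n-ℓ)) * 2^ℓ := by gcongr
    _ = _ := by ring

open Classical in
lemma card_heavy {ν : Measure ℝ} [IsFiniteMeasure ν] (x : ℝ) {n ℓ j : ℕ} (hℓn : ℓ ≤ n)
    (h : ν.real (Ico (x + (j:ℝ)/2^ℓ) (x + (j:ℝ)/2^ℓ + (1/2)^ℓ)) ≤ (1/4) * (1/2)^ℓ) :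
    (((cells n ℓ j).filter (fun t : ℕ =>
      (1/2) * (1/2:ℝ)^n < ν.real (Ico (x + (t:ℝ)/2^n) (x + (t:ℝ)/2^n + (1/2)^n)))).card : ℝ) ≤
      (1/2) * 2^(n-ℓ) := by
  set H := (cells n ℓ j).filter (fun t : ℕ =>
      (1/2) * (1/2:ℝ)^n < ν.real (Ico (x + (t:ℝ)/2^n) (x + (t:ℝ)/2^n + (1/2)^n))) with hH
  have h1 : (H.card : ℝ) * ((1/2) * (1/2:ℝ)^n) ≤ (1/4) * (1/2)^ℓ := by
    calc (H.card : ℝ) * ((1/2) * (1/2:ℝ)^n) = ∑ _t ∈ H, (1/2) * (1/2:ℝ)^n := by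
          rw [Finset.sum_const, nsmul_eq_mul]
      _ ≤ ∑ t ∈ H, ν.real (Ico (x + (t:ℝ)/2^n) (x + (t:ℝ)/2^n + (1/2)^n)) := by
          apply Finset.sum_le_sum
          intro t ht
          rw [hH, Finset.mem_filter] at ht
          exact ht.2.le
      _ = ν.real (⋃ t ∈ H, Ico (x + (t:ℝ)/2^n) (x + (t:ℝ)/2^n + (1/2)^n)) := by
          rw [measureReal_biUnion_finset]
          · intro a _ b _ hab
            rw [Function.onFun, Set.disjoint_left]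
            intro v hv1 hv2
            have hp : (0:ℝ) < 2^n := by positivity
            have e1 : ∀ t : ℕ, x + (t:ℝ)/2^n + (1/2)^n = x + ((t + 1 : ℕ) : ℝ)/2^n := by
              intro t; push_cast; rw [one_div_pow]; ring
            rcases lt_or_gt_of_ne hab with hlt | hlt
            · have h2 : ((a + 1 : ℕ) : ℝ)/2^n ≤ (b:ℝ)/2^n := by
                gcongr; omega
              have h3 := hv1.2
              rw [e1] at h3
              linarith [hv2.1]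
            · have h2 : ((b + 1 : ℕ) : ℝ)/2^n ≤ (a:ℝ)/2^n := by
                gcongr; omega
              have h3 := hv2.2
              rw [e1] at h3
              linarith [hv1.1]
          · intro b _
            exact measurableSet_Ico
      _ ≤ ν.real (Ico (x + (j:ℝ)/2^ℓ) (x + (j:ℝ)/2^ℓ + (1/2)^ℓ)) := by
          refine measureReal_mono ?_ (measure_ne_top _ _)
          apply iUnion₂_subset
          intro t ht v hv
          rw [hH, Finset.mem_filter, cells, Finset.mem_Ico] at ht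
          have h2 := cell_left hℓn ht.1.1
          have h3 := cell_right hℓn ht.1.2
          exact ⟨by linarith [hv.1], by linarith [hv.2]⟩
      _ ≤ _ := h
  rw [half_pow_eq hℓn] at h1
  have hp : (0:ℝ) < (1/2:ℝ)^n := by positivity
  have h2 : (H.card : ℝ) * (1/2) * (1/2:ℝ)^n ≤ (1/4) * 2^(n-ℓ) * (1/2)^n := by
    calc _ = (H.card : ℝ) * ((1/2) * (1/2:ℝ)^n) := by ring
      _ ≤ _ := h1
      _ = _ := by ring
  have h3 := le_of_mul_le_mul_right h2 hp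
  linarith

end Pool.Agent.H91.Liou
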