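import Mathlib
import Pool.Agent.H91.Liou.Count

set_option autoImplicit false

open MeasureTheory Set Filter Topology Metric
open scoped ENNReal NNReal Pointwise

namespace Pool.Agent.H91.Liou

/-- admissible state: level-`ℓ` cell number `j` -/
def St (z : ℕ → ℝ) (p : ℕ → ℕ) (x : ℝ) (ℓ j : ℕ) : Prop :=
  j < 2^ℓ ∧
  (∀ i, p i < ℓ → ∀ y ∈ Icc ((j:ℝ)/2^ℓ) ((j:ℝ)/2^ℓ + (1/2)^ℓ), (1/2)^(p i) < |x + y - z i|) ∧
  (nu z p ℓ).real (Ico (x + (j:ℝ)/2^ℓ) (x + (j:ℝ)/2^ℓ + (1/2)^ℓ)) ≤ (1/4) * (1/2)^ℓ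

/-- `x` is not captured on arbitrarily long windows -/
def Unc (z : ℕ → ℝ) (p : ℕ → ℕ) (ε : ℝ) (x : ℝ) : Prop :=
  ∀ K : ℕ, ∃ n : ℕ, K ≤ n ∧ ∀ k : ℕ, n ≤ k → k ≤ K * n → ∀ n' ℓ j : ℕ, n' ≤ k → ℓ ≤ k →
    (ℓ:ℝ) ≤ (ε/4) * k → j < 2^ℓ → x ∉ Cap z p ((1/2)^((ε/4) * k)) n' ℓ j k

lemma exists_geom_small {ρ : ℝ} (h0 : 0 < ρ) (h1 : ρ < 1) :
    ∃ n1 : ℕ, ∀ n : ℕ, n1 ≤ n → ρ^n / (1 - ρ) ≤ 1/4 := by
  have h2 : Tendsto (fun n : ℕ => ρ^n / (1 - ρ)) atTop (𝓝 (0 / (1 - ρ))) :=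
    (tendsto_pow_atTop_nhds_zero_of_lt_one h0.le h1).div_const _
  rw [zero_div] at h2
  obtain ⟨n1, hn1⟩ := eventually_atTop.1 (h2.eventually (gt_mem_nhds (show (0:ℝ) < 1/4 by norm_num)))
  exact ⟨n1, fun n hn => (hn1 n hn).le⟩

lemma step {z : ℕ → ℝ} {p : ℕ → ℕ} {d : ℝ} (hd1 : d < 1)
    (hsum : ∑' i, ENNReal.ofReal ((1/2:ℝ)^(d * p i)) ≤ ENNReal.ofReal (1/16))
    {ε : ℝ} (hε : 0 < ε) {x : ℝ} (hunc : Unc z p ε x) {ℓ j : ℕ} (hst : St z p x ℓ j) (N : ℕ) :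
    ∃ n t K : ℕ, N + 1 ≤ n ∧ N + 1 ≤ K ∧ ℓ ≤ n ∧ j * 2^(n-ℓ) < t ∧ t < (j+1) * 2^(n-ℓ) ∧
      St z p x (K * n) (t * 2^(K*n-n)) := by
  classical
  set ρ : ℝ := (1/2:ℝ)^(ε/4) with hρ
  have hρ0 : 0 < ρ := by positivity
  have hρ1 : ρ < 1 := Real.rpow_lt_one (by norm_num) (by norm_num) (by positivity)
  obtain ⟨n1, hn1⟩ := exists_geom_small hρ0 hρ1
  obtain ⟨n2, hn2⟩ := exists_nat_ge ((ℓ:ℝ) / (ε/4))
  set K : ℕ := (N + 1) + n1 + n2 + (ℓ + 3) with hK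
  obtain ⟨n, hKn, hwin⟩ := hunc K
  have hnN : N + 1 ≤ n := by omega
  have hKN : N + 1 ≤ K := by omega
  have hℓn : ℓ + 3 ≤ n := by omega
  have hn1' : n1 ≤ n := by omega
  have hn2' : n2 ≤ n := by omega
  have hK1 : 1 ≤ K := by omega
  have hnKn : n ≤ K * n := Nat.le_mul_of_pos_left n (by omega)
  obtain ⟨hj, hav, hli⟩ := hst
  have hfin := fun k => nu_finite (z := z) hd1 hsum k
  -- few heavy cells at the levels of the window
  have hBl : ∀ k ∈ Finset.Ico n (K * n + 1), ((Bl z p x n ℓ j k).card : ℝ) ≤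
      ρ^k * 2^(n-ℓ) := by
    intro k hk
    rw [Finset.mem_Ico] at hk
    have h1 : x ∉ Cap z p ((1/2)^((ε/4) * k)) n ℓ j k := by
      apply hwin k hk.1 (by omega) n ℓ j hk.1 (by omega) _ hj
      have h2 : (ℓ:ℝ) / (ε/4) ≤ k := hn2.trans (by exact_mod_cast (show n2 ≤ k by omega))
      rw [div_le_iff₀ (by positivity)] at h2
      linarith
    rw [Cap, Set.mem_ofPred_eq, not_le, Real.rpow_mul (by norm_num), Real.rpow_natCast] at h1
    exact h1.le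
  set Bad : Finset ℕ := ((cells n ℓ j).filter (fun t : ℕ => (1/2) * (1/2:ℝ)^n <
      (nu z p ℓ).real (Ico (x + (t:ℝ)/2^n) (x + (t:ℝ)/2^n + (1/2)^n)))) ∪
      ((Finset.Ico n (K * n + 1)).biUnion (fun k => Bl z p x n ℓ j k)) ∪ {j * 2^(n-ℓ)} with hBad
  have hcard : Bad.card < (cells n ℓ j).card := by
    have h1 : (Bad.card : ℝ) ≤ (1/2) * 2^(n-ℓ) + (1/4) * 2^(n-ℓ) + 1 := by
      have h2 := Finset.card_union_le (((cells n ℓ j).filter (fun t : ℕ => (1/2) * (1/2:ℝ)^n <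
        (nu z p ℓ).real (Ico (x + (t:ℝ)/2^n) (x + (t:ℝ)/2^n + (1/2)^n)))) ∪
        ((Finset.Ico n (K * n + 1)).biUnion (fun k => Bl z p x n ℓ j k))) {j * 2^(n-ℓ)}
      have h3 := Finset.card_union_le ((cells n ℓ j).filter (fun t : ℕ => (1/2) * (1/2:ℝ)^n <
        (nu z p ℓ).real (Ico (x + (t:ℝ)/2^n) (x + (t:ℝ)/2^n + (1/2)^n))))
        ((Finset.Ico n (K * n + 1)).biUnion (fun k => Bl z p x n ℓ j k))
      rw [Finset.card_singleton] at h2
      have h4 : ((((Finset.Ico n (K * n + 1)).biUnion (fun k => Bl z p x n ℓ j k)).card : ℕ) : ℝ) ≤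
          (1/4) * 2^(n-ℓ) := by
        calc ((((Finset.Ico n (K * n + 1)).biUnion (fun k => Bl z p x n ℓ j k)).card : ℕ) : ℝ)
            ≤ ∑ k ∈ Finset.Ico n (K * n + 1), ((Bl z p x n ℓ j k).card : ℝ) := by
              exact_mod_cast Finset.card_biUnion_le
          _ ≤ ∑ k ∈ Finset.Ico n (K * n + 1), ρ^k * 2^(n-ℓ) := Finset.sum_le_sum hBl
          _ = (∑ k ∈ Finset.Ico n (K * n + 1), ρ^k) * 2^(n-ℓ) := by rw [Finset.sum_mul]
          _ ≤ (ρ^n / (1 - ρ)) * 2^(n-ℓ) := by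
              gcongr
              exact geom_sum_Ico_le_of_lt_one hρ0.le hρ1
          _ ≤ (1/4) * 2^(n-ℓ) := by
              exact mul_le_mul_of_nonneg_right (hn1 n hn1') (by positivity)
      have h5 := card_heavy x (show ℓ ≤ n by omega) hli
      have h6 : (Bad.card : ℝ) ≤ ((((cells n ℓ j).filter (fun t : ℕ => (1/2) * (1/2:ℝ)^n <
        (nu z p ℓ).real (Ico (x + (t:ℝ)/2^n) (x + (t:ℝ)/2^n + (1/2)^n)))).card : ℕ) : ℝ) +
        ((((Finset.Ico n (K * n + 1)).biUnion (fun k => Bl z p x n ℓ j k)).card : ℕ) : ℝ) + 1 := by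
        rw [hBad]
        exact_mod_cast h2.trans (Nat.add_le_add_right h3 1)
      linarith
    have h7 : (8:ℝ) ≤ 2^(n-ℓ) := by
      calc (8:ℝ) = 2^3 := by norm_num
        _ ≤ 2^(n-ℓ) := pow_le_pow_right₀ (by norm_num) (by omega)
    have h8 : (Bad.card : ℝ) < ((cells n ℓ j).card : ℝ) := by
      rw [card_cells]; push_cast
      linarith
    exact_mod_cast h8
  obtain ⟨t, htc, htb⟩ := Finset.exists_mem_notMem_of_card_lt_card hcard
  have htc' := htc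
  rw [cells, Finset.mem_Ico] at htc'
  rw [hBad, Finset.mem_union, Finset.mem_union, not_or, not_or] at htb
  obtain ⟨⟨hb1, hb2⟩, hb3⟩ := htb
  rw [Finset.mem_filter, not_and, not_lt] at hb1
  have hlight := hb1 htc
  have hwinlight : ∀ k, n ≤ k → k ≤ K * n →
      (nu z p k).real (Ico (x + (t:ℝ)/2^n) (x + (t:ℝ)/2^n + (1/2)^k)) ≤ (1/4) * (1/2)^k := by
    intro k hk1 hk2
    have h1 : t ∉ Bl z p x n ℓ j k := by
      intro h2
      exact hb2 (Finset.mem_biUnion.2 ⟨k, Finset.mem_Ico.2 ⟨hk1, by omega⟩, h2⟩)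
    rw [Bl, Finset.mem_filter, not_and, not_lt] at h1
    exact h1 htc
  have htj : j * 2^(n-ℓ) < t := by
    rcases lt_or_eq_of_le htc'.1 with h | h
    · exact h
    · exact absurd (Finset.mem_singleton.2 h.symm) hb3
  refine ⟨n, t, K, hnN, hKN, by omega, htj, htc'.2, ?_, ?_, ?_⟩
  · -- t * 2^(Kn-n) < 2^(Kn)
    have h1 : t < 2^n := by
      calc t < (j+1) * 2^(n-ℓ) := htc'.2
        _ ≤ 2^ℓ * 2^(n-ℓ) := Nat.mul_le_mul_right _ hj
        _ = 2^n := by rw [← pow_add]; congr 1; omega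
    calc t * 2^(K*n-n) < 2^n * 2^(K*n-n) := by
          exact Nat.mul_lt_mul_of_pos_right h1 (by positivity)
      _ = 2^(K*n) := by rw [← pow_add]; congr 1; omega
  · intro i hi y hy
    have ecast : ((t * 2^(K*n-n) : ℕ) : ℝ) / 2^(K*n) = (t:ℝ)/2^n := by
      have h2 : (2:ℝ)^(K*n) = 2^n * 2^(K*n-n) := by rw [← pow_add]; congr 1; omega
      push_cast
      rw [h2]
      field_simp
    rw [ecast] at hy
    have hpow : (1/2:ℝ)^(K*n) ≤ (1/2)^n := pow_le_pow_of_le_one (by norm_num) (by norm_num) hnKn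
    rcases lt_or_ge (p i) ℓ with h | h
    · apply hav i h
      have h1 := cell_left (show ℓ ≤ n by omega) htc'.1
      have h2 := cell_right (show ℓ ≤ n by omega) htc'.2
      exact ⟨by linarith [hy.1], by linarith [hy.2]⟩
    · rcases lt_or_ge (p i) n with h' | h'
      · have := hfin ℓ
        exact nu_avoid (k := ℓ) (q := n) (u := x + (t:ℝ)/2^n) h h'.le hlight
          ⟨by linarith [hy.1], by linarith [hy.2]⟩
      · have := hfin (p i)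
        have h1 := hwinlight (p i) h' hi.le
        have hpow' : (1/2:ℝ)^(K*n) ≤ (1/2)^(p i) :=
          pow_le_pow_of_le_one (by norm_num) (by norm_num) hi.le
        have h2 : (0:ℝ) < (1/2)^(p i) := by positivity
        exact nu_avoid (k := p i) (q := p i) (u := x + (t:ℝ)/2^n) le_rfl le_rfl (by linarith)
          ⟨by linarith [hy.1], by linarith [hy.2]⟩
  · have ecast : ((t * 2^(K*n-n) : ℕ) : ℝ) / 2^(K*n) = (t:ℝ)/2^n := by
      have h2 : (2:ℝ)^(K*n) = 2^n * 2^(K*n-n) := by rw [← pow_add]; congr 1; omega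
      push_cast
      rw [h2]
      field_simp
    rw [ecast]
    exact hwinlight (K * n) hnKn le_rfl

end Pool.Agent.H91.Liou
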