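import Mathlib
import Pool.Agent.H91.Liou.Step

set_option autoImplicit false

open MeasureTheory Set Filter Topology Metric
open scoped ENNReal NNReal Pointwise

namespace Pool.Agent.H91.Liou

/-- an uncaptured point admits a Liouville number that escapes all balls -/
theorem exists_liouville {z : ℕ → ℝ} {p : ℕ → ℕ} {d : ℝ} (hd1 : d < 1)
    (hsum : ∑' i, ENNReal.ofReal ((1/2:ℝ)^(d * p i)) ≤ ENNReal.ofReal (1/16))
    {ε : ℝ} (hε : 0 < ε) {x : ℝ} (hunc : Unc z p ε x) :
    ∃ y : ℝ, Liouville y ∧ ∀ i, (1/2)^(p i) < |x + y - z i| := by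
  have hinit : St z p x 0 0 := by
    refine ⟨by norm_num, fun i hi => absurd hi (Nat.not_lt_zero _), ?_⟩
    have := nu_finite (z := z) hd1 hsum 0
    refine (measureReal_mono (subset_univ _) (measure_ne_top _ _)).trans ?_
    refine (nu_real_univ_le (z := z) hd1 hsum 0).trans ?_
    simp
  let S := {s : ℕ × ℕ // St z p x s.1 s.2}
  have hstep : ∀ (s : S) (N : ℕ), ∃ (n t : ℕ) (s' : S), N + 1 ≤ n ∧ (N + 1) * n ≤ s'.1.1 ∧
      s.1.1 ≤ n ∧ s.1.2 * 2^(n - s.1.1) < t ∧ t < (s.1.2 + 1) * 2^(n - s.1.1) ∧ n ≤ s'.1.1 ∧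
      s'.1.2 = t * 2^(s'.1.1 - n) := by
    rintro ⟨⟨ℓ, j⟩, hs⟩ N
    obtain ⟨n, t, K, h1, h2, h3, h4, h5, h6⟩ := step hd1 hsum hε hunc hs N
    exact ⟨n, t, ⟨(K * n, t * 2^(K*n-n)), h6⟩, h1, Nat.mul_le_mul_right n h2, h3, h4, h5,
      Nat.le_mul_of_pos_left n (by omega), rfl⟩
  choose n t s' hN1 hN2 hN3 hN4 hN5 hN6 hN7 using hstep
  let seq : ℕ → S := fun k => Nat.rec ⟨(0, 0), hinit⟩ (fun k s => s' s k) k
  have hseq : ∀ k, seq (k+1) = s' (seq k) k := fun k => rfl
  let lo : ℕ → ℝ := fun k => ((seq k).1.2 : ℝ) / 2^((seq k).1.1)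
  let I : ℕ → Set ℝ := fun k => Icc (lo k) (lo k + (1/2)^((seq k).1.1))
  -- the lower end points
  have hlo : ∀ k, lo (k+1) = (t (seq k) k : ℝ) / 2^(n (seq k) k) := by
    intro k
    simp only [lo, hseq]
    rw [hN7]
    have h1 := hN6 (seq k) k
    set a := (s' (seq k) k).1.1
    set b := n (seq k) k
    have h2 : (2:ℝ)^a = 2^b * 2^(a - b) := by rw [← pow_add]; congr 1; omega
    push_cast
    rw [h2]
    field_simp
  have hlt : ∀ k, lo k < lo (k+1) := by
    intro k
    rw [hlo]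
    have h1 := hN4 (seq k) k
    have h3 := hN3 (seq k) k
    simp only [lo]
    set a := (seq k).1.1
    set b := n (seq k) k
    set c := (seq k).1.2
    set e := t (seq k) k
    have h2 : (2:ℝ)^b = 2^(b - a) * 2^a := by rw [← pow_add]; congr 1; omega
    have h4 : ((c * 2^(b-a) : ℕ) : ℝ) < e := by exact_mod_cast h1
    push_cast at h4
    rw [h2, div_lt_div_iff₀ (by positivity) (by positivity)]
    have h5 : (0:ℝ) < 2^a := by positivity
    calc (c:ℝ) * (2^(b-a) * 2^a) = (c * 2^(b-a)) * 2^a := by ring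
      _ < e * 2^a := by gcongr
  have hhi : ∀ k, lo (k+1) + (1/2)^((seq (k+1)).1.1) ≤ lo k + (1/2)^((seq k).1.1) := by
    intro k
    rw [hlo]
    have h1 := cell_right (hN3 (seq k) k) (hN5 (seq k) k)
    have h2 : (1/2:ℝ)^((seq (k+1)).1.1) ≤ (1/2)^(n (seq k) k) := by
      rw [hseq]
      exact pow_le_pow_of_le_one (by norm_num) (by norm_num) (hN6 (seq k) k)
    simp only [lo]
    linarith
  have hnest : ∀ k, I (k+1) ⊆ I k := by
    intro k v hv
    exact ⟨(hlt k).le.trans hv.1, hv.2.trans (hhi k)⟩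
  have hne : ∀ k, (I k).Nonempty := fun k => ⟨lo k, le_rfl, by simp only [le_add_iff_nonneg_right]; positivity⟩
  obtain ⟨y, hy⟩ := IsCompact.nonempty_iInter_of_sequence_nonempty_isCompact_isClosed I hnest hne
    isCompact_Icc (fun k => isClosed_Icc)
  rw [mem_iInter] at hy
  have hlev : ∀ k, k ≤ (seq k).1.1 := by
    intro k
    cases k with
    | zero => exact Nat.zero_le _
    | succ k =>
      rw [hseq]
      have h1 := hN2 (seq k) k
      have h2 := hN1 (seq k) k
      nlinarith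
  refine ⟨y, ?_, ?_⟩
  · intro N
    have h1 := hN1 (seq N) N
    have h2 := hN2 (seq N) N
    set b := n (seq N) N with hb
    refine ⟨(t (seq N) N : ℤ), (2:ℤ)^b, ?_, ?_, ?_⟩
    · exact one_lt_pow₀ (by norm_num) (by omega)
    · have h3 := (hy (N+2)).1
      have h4 := hlt (N+1)
      rw [hlo N] at h4
      push_cast
      intro h5
      rw [h5] at h3
      exact absurd (lt_of_lt_of_le h4 h3) (lt_irrefl _)
    · have h3 := hy (N+1)
      have h4 : lo (N+1) = (t (seq N) N : ℝ) / 2^b := hlo N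
      have h5 : (1/2:ℝ)^((seq (N+1)).1.1) ≤ (1/2)^(b * N + 1) := by
        apply pow_le_pow_of_le_one (by norm_num) (by norm_num)
        rw [hseq]
        have : b * N + 1 ≤ (N + 1) * b := by nlinarith
        omega
      have h6 : (1/2:ℝ)^(b * N + 1) < 1 / ((2:ℝ)^b)^N := by
        rw [← pow_mul, pow_succ, one_div_pow]
        have : (0:ℝ) < 1 / 2^(b * N) := by positivity
        linarith
      push_cast
      have h7 := h3.1
      have h8 := h3.2
      rw [h4] at h7 h8
      rw [abs_of_nonneg (by linarith)]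
      linarith
  · intro i
    have h1 := (seq (p i + 1)).2.2.1 i (lt_of_lt_of_le (Nat.lt_succ_self _) (hlev (p i + 1)))
    exact h1 y (hy (p i + 1))

/-- the key lower bound -/
theorem captured_of_null {X : Set ℝ} {d ε : ℝ} (hd0 : 0 < d) (hd1 : d < 1) (hε : 0 < ε)
    (h : μH[d] (X + {y : ℝ | Liouville y}) = 0) : Captured (d + ε) X := by
  classical
  obtain ⟨z, p, hz, -, hsum⟩ := exists_dyadic_cover hd0 h
    (show (0:ℝ≥0∞) < ENNReal.ofReal (1/16) by simp) 0
  obtain ⟨m0, hm0⟩ := exists_poly_le (show 0 < ε/2 by positivity)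
  -- nets
  have hnet : ∀ n ℓ j k : ℕ, ∃ F : Finset ℝ, (F.card : ℝ) ≤ 2^(d * k) / ((1/2:ℝ)^((ε/4) * k)) ∧
      ∀ x ∈ Cap z p ((1/2)^((ε/4) * k)) n ℓ j k, ∃ a ∈ F, |x - a| ≤ (1/2)^k := by
    intro n ℓ j k
    obtain ⟨F, hF1, hF2⟩ := exists_net (Cap z p ((1/2)^((ε/4) * k)) n ℓ j k)
      (show (0:ℝ) ≤ (1/2)^k by positivity) ⌊(2:ℝ)^(d * k) / ((1/2:ℝ)^((ε/4) * k))⌋₊
      (fun F h1 h2 => Nat.le_floor (card_sep hd1 hsum (by positivity) n ℓ j k F h1 h2))
    exact ⟨F, (Nat.le_floor_iff (by positivity)).1 hF1, hF2⟩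
  choose net hnet1 hnet2 using hnet
  let A : ℕ → Finset ℝ := fun k => if m0 ≤ k then
    (Finset.range (k+1) ×ˢ Finset.range (k+1)).biUnion (fun q =>
      if (q.2:ℝ) ≤ (ε/4) * k then (Finset.range (2^q.2)).biUnion (fun j => net q.1 q.2 j k) else ∅)
    else ∅
  refine ⟨A, ?_, ?_⟩
  · intro k
    simp only [A]
    split_ifs with hk
    · have h1 : ∀ q ∈ Finset.range (k+1) ×ˢ Finset.range (k+1),
          (((if (q.2:ℝ) ≤ (ε/4) * k then
            (Finset.range (2^q.2)).biUnion (fun j => net q.1 q.2 j k) else ∅ : Finset ℝ).card : ℕ) : ℝ)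
          ≤ 2^((ε/4) * k) * (2^(d * k) / ((1/2:ℝ)^((ε/4) * k))) := by
        intro q _
        split_ifs with hq
        · calc ((((Finset.range (2^q.2)).biUnion (fun j => net q.1 q.2 j k)).card : ℕ) : ℝ)
              ≤ ∑ j ∈ Finset.range (2^q.2), ((net q.1 q.2 j k).card : ℝ) := by
                exact_mod_cast Finset.card_biUnion_le
            _ ≤ ∑ j ∈ Finset.range (2^q.2), (2:ℝ)^(d * k) / ((1/2:ℝ)^((ε/4) * k)) :=
                Finset.sum_le_sum fun j _ => hnet1 q.1 q.2 j k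
            _ = 2^(q.2:ℝ) * ((2:ℝ)^(d * k) / ((1/2:ℝ)^((ε/4) * k))) := by
                rw [Finset.sum_const, Finset.card_range, nsmul_eq_mul]; push_cast
                rw [Real.rpow_natCast]
            _ ≤ _ := by
                gcongr
                norm_num
        · simp only [Finset.card_empty, CharP.cast_eq_zero]; positivity
      calc ((((Finset.range (k+1) ×ˢ Finset.range (k+1)).biUnion (fun q =>
          if (q.2:ℝ) ≤ (ε/4) * k then (Finset.range (2^q.2)).biUnion (fun j => net q.1 q.2 j k)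
          else ∅)).card : ℕ) : ℝ)
          ≤ ∑ q ∈ Finset.range (k+1) ×ˢ Finset.range (k+1), (((if (q.2:ℝ) ≤ (ε/4) * k then
            (Finset.range (2^q.2)).biUnion (fun j => net q.1 q.2 j k) else ∅ : Finset ℝ).card : ℕ) : ℝ) := by
            exact_mod_cast Finset.card_biUnion_le
        _ ≤ ∑ q ∈ Finset.range (k+1) ×ˢ Finset.range (k+1),
            (2:ℝ)^((ε/4) * k) * (2^(d * k) / ((1/2:ℝ)^((ε/4) * k))) := Finset.sum_le_sum h1
        _ = ((k:ℝ)+1)^2 * (2^((ε/4) * k) * (2^(d * k) / ((1/2:ℝ)^((ε/4) * k)))) := by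
            rw [Finset.sum_const, Finset.card_product, Finset.card_range, nsmul_eq_mul]
            push_cast; ring
        _ ≤ 2^((ε/2) * k) * (2^((ε/4) * k) * (2^(d * k) / ((1/2:ℝ)^((ε/4) * k)))) := by
            have h2 := hm0 k hk
            have h3 : ((k:ℝ)+1)^2 ≤ 2^((ε/2) * k) := by nlinarith [sq_nonneg ((k:ℝ)+1)]
            gcongr
        _ = 2^((d + ε) * k) := by
            have e1 : ((1/2:ℝ)^((ε/4) * k))⁻¹ = 2^((ε/4) * k) := by
              rw [one_div, Real.inv_rpow (by norm_num), inv_inv]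
            have e2 : (2:ℝ)^(d * k) / ((1/2:ℝ)^((ε/4) * k)) = 2^(d * k) * 2^((ε/4) * k) := by
              rw [div_eq_mul_inv _ ((1/2:ℝ)^((ε/4) * (k:ℝ))), e1]
            rw [e2, ← Real.rpow_add (by norm_num), ← Real.rpow_add (by norm_num),
              ← Real.rpow_add (by norm_num)]
            congr 1
            ring
    · simp only [Finset.card_empty, CharP.cast_eq_zero]; positivity
  · intro x hx
    by_contra hcon
    push Not at hcon
    have hunc : Unc z p ε x := by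
      intro K
      obtain ⟨n, hn1, hn2⟩ := hcon (max K m0)
      refine ⟨n, (le_max_left _ _).trans hn1, ?_⟩
      intro k hk1 hk2 n' ℓ j hn' hℓ hℓk hj hxC
      obtain ⟨a, ha, hxa⟩ := hnet2 n' ℓ j k x hxC
      have h1 := hn2 k hk1 (hk2.trans (Nat.mul_le_mul_right n (le_max_left _ _))) a ?_
      · linarith
      · simp only [A]
        rw [if_pos (show m0 ≤ k from (le_max_right K m0).trans (hn1.trans hk1))]
        rw [Finset.mem_biUnion]
        refine ⟨(n', ℓ), ?_, ?_⟩
        · rw [Finset.mem_product, Finset.mem_range, Finset.mem_range]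
          exact ⟨by simpa using Nat.lt_succ_of_le hn', by simpa using Nat.lt_succ_of_le hℓ⟩
        · dsimp only
          rw [if_pos hℓk, Finset.mem_biUnion]
          exact ⟨j, Finset.mem_range.2 hj, ha⟩
    obtain ⟨y, hy1, hy2⟩ := exists_liouville hd1 hsum hε hunc
    obtain ⟨i, hi⟩ := mem_iUnion.1 (hz (Set.add_mem_add hx hy1))
    rw [mem_closedBall, Real.dist_eq] at hi
    exact absurd hi (not_le.2 (hy2 i))

end Pool.Agent.H91.Liou
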