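import Mathlib
import Pool.Agent.H91.Liou.Lower

set_option autoImplicit false

open MeasureTheory Set Filter Topology Metric
open scoped ENNReal NNReal Pointwise

namespace Pool.Agent.H91.Liou

/-- `P` is the union of countably many centred pieces. -/
def SigmaCentered (P : Type) [Preorder P] : Prop :=
  ∃ C : ℕ → Set P, (∀ p, ∃ i, p ∈ C i) ∧
    ∀ i, ∀ F : Finset P, (F : Set P) ⊆ C i → ∃ q, ∀ p ∈ F, q ≤ p

/-- A `P`-name for a sequence `(A_m)` of finite sets with at most `2^(s m)` points, `A_m ⊆ V m`,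
given by its forcing relation `dec p m F`: the condition `p` forces `A_m = F`. -/
structure CapName (P : Type) [Preorder P] (s : ℝ) where
  V : ℕ → Finset ℝ
  dec : P → ℕ → Finset ℝ → Prop
  mono : ∀ p q m F, q ≤ p → dec p m F → dec q m F
  dense : ∀ p m, ∃ q, q ≤ p ∧ ∃ F, dec q m F
  unique : ∀ p m F G, dec p m F → dec p m G → F = G
  sub : ∀ p m F, dec p m F → F ⊆ V m
  card : ∀ p m F, dec p m F → (F.card : ℝ) ≤ (2:ℝ) ^ (s * m)

/-- `p` forces that `x` is captured by the named sequence: it forces that there is `K` such that for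
all `n ≥ K` some level `m` in `[n, K n]` has a point of `A_m` within `2^(-m)` of `x`. -/
def CapName.ForcesCaptured {P : Type} [Preorder P] {s : ℝ} (A : CapName P s) (p : P) (x : ℝ) :
    Prop :=
  ∀ q, q ≤ p → ∃ r, r ≤ q ∧ ∃ K : ℕ, ∀ n : ℕ, K ≤ n → ∀ r', r' ≤ r → ∃ r'', r'' ≤ r' ∧
    ∃ m : ℕ, n ≤ m ∧ m ≤ K * n ∧ ∃ F, A.dec r'' m F ∧ ∃ a ∈ F, |x - a| ≤ (1/2) ^ m

lemma CapName.dense_all {P : Type} [Preorder P] {s : ℝ} (A : CapName P s) (N : ℕ) (p : P) :
    ∃ q, q ≤ p ∧ ∀ m, m ≤ N → ∃ F, A.dec q m F := by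
  induction N with
  | zero =>
    obtain ⟨q, hq, F, hF⟩ := A.dense p 0
    exact ⟨q, hq, fun m hm => by
      obtain rfl : m = 0 := by omega
      exact ⟨F, hF⟩⟩
  | succ N ih =>
    obtain ⟨q, hq, h⟩ := ih
    obtain ⟨q', hq', F, hF⟩ := A.dense q (N+1)
    refine ⟨q', hq'.trans hq, fun m hm => ?_⟩
    rcases Nat.lt_or_ge m (N+1) with h1 | h1
    · obtain ⟨G, hG⟩ := h m (by omega)
      exact ⟨G, A.mono _ _ _ _ hq' hG⟩
    · obtain rfl : m = N + 1 := by omega
      exact ⟨F, hF⟩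

/-- on a centred piece a name has a ground model limit -/
lemma CapName.exists_limit {P : Type} [Preorder P] {s : ℝ} (A : CapName P s) (C : Set P)
    (hC : ∀ F : Finset P, (F : Set P) ⊆ C → ∃ q, ∀ p ∈ F, q ≤ p) :
    ∃ B : ℕ → Finset ℝ, ∀ N : ℕ, ∀ p ∈ C, ∃ q, q ≤ p ∧ ∀ m, m ≤ N → A.dec q m (B m) := by
  classical
  let D : ℕ → Set P := fun N => {q | ∀ m, m ≤ N → ∃ F, A.dec q m F}
  let S : Set (Set P) := {t | ∃ p ∈ C, t = Iic p} ∪ {t | ∃ N, t = D N}
  have hFIP : ∀ T : Finset (Set P), (T : Set (Set P)) ⊆ S → (⋂₀ (T : Set (Set P))).Nonempty := by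
    intro T hT
    have key : ∃ (G : Finset P) (N : ℕ), (G : Set P) ⊆ C ∧
        ∀ q, (∀ p ∈ G, q ≤ p) → q ∈ D N → ∀ t ∈ T, q ∈ t := by
      induction T using Finset.induction_on with
      | empty => exact ⟨∅, 0, by simp, fun q _ _ t ht => absurd ht (Finset.notMem_empty _)⟩
      | insert t T _ ih =>
        rw [Finset.coe_insert, insert_subset_iff] at hT
        obtain ⟨G, N, hG, h⟩ := ih hT.2
        rcases hT.1 with ⟨p, hp, rfl⟩ | ⟨M, rfl⟩
        · refine ⟨insert p G, N, ?_, ?_⟩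
          · rw [Finset.coe_insert, insert_subset_iff]; exact ⟨hp, hG⟩
          · intro q hq1 hq2 t ht
            rcases Finset.mem_insert.1 ht with rfl | ht
            · exact hq1 p (Finset.mem_insert_self _ _)
            · exact h q (fun p hp => hq1 p (Finset.mem_insert_of_mem hp)) hq2 t ht
        · refine ⟨G, max N M, hG, ?_⟩
          intro q hq1 hq2 t ht
          rcases Finset.mem_insert.1 ht with rfl | ht
          · exact fun m hm => hq2 m (hm.trans (le_max_right _ _))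
          · exact h q hq1 (fun m hm => hq2 m (hm.trans (le_max_left _ _))) t ht
    obtain ⟨G, N, hG, h⟩ := key
    obtain ⟨q, hq⟩ := hC G hG
    obtain ⟨q', hq', hD⟩ := A.dense_all N q
    exact ⟨q', fun t ht => h q' (fun p hp => hq'.trans (hq p hp)) hD t ht⟩
  obtain ⟨U, hU⟩ := Ultrafilter.exists_ultrafilter_of_finite_inter_nonempty S hFIP
  have hval : ∀ m : ℕ, ∃ F : Finset ℝ, {q | A.dec q m F} ∈ U := by
    intro m
    have h1 : D m ∈ U := hU (Or.inr ⟨m, rfl⟩)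
    have h2 : (⋃ F ∈ (((A.V m).powerset : Finset (Finset ℝ)) : Set (Finset ℝ)),
        {q | A.dec q m F}) ∈ U := by
      refine mem_of_superset h1 ?_
      intro q hq
      obtain ⟨F, hF⟩ := hq m le_rfl
      exact mem_iUnion₂.2 ⟨F, Finset.mem_coe.2 (Finset.mem_powerset.2 (A.sub _ _ _ hF)), hF⟩
    obtain ⟨F, -, hF⟩ := (Ultrafilter.finite_biUnion_mem_iff (Finset.finite_toSet _)).1 h2
    exact ⟨F, hF⟩
  choose B hB using hval
  refine ⟨B, fun N p hp => ?_⟩
  have h1 : Iic p ∈ U := hU (Or.inl ⟨p, hp, rfl⟩)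
  have h2 : (⋂ m ∈ Finset.range (N+1), {q | A.dec q m (B m)}) ∈ U := by
    apply (biInter_finset_mem _).2
    intro m _
    exact hB m
  have h3 : (Iic p ∩ ⋂ m ∈ Finset.range (N+1), {q | A.dec q m (B m)}) ∈ U := inter_mem h1 h2
  obtain ⟨q, hq1, hq2⟩ := U.nonempty_of_mem h3
  refine ⟨q, hq1, fun m hm => ?_⟩
  exact mem_iInter₂.1 hq2 m (Finset.mem_range.2 (by omega))

/-- For σ-centred `P` the points that some condition forces to be captured by a name of rate `s`
form a union of countably many sets captured at rate `s` in the ground model. -/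
theorem CapName.countable_cover {P : Type} [Preorder P] {s : ℝ} (hP : SigmaCentered P)
    (A : CapName P s) :
    ∃ X : ℕ → Set ℝ, (∀ i, Captured s (X i)) ∧ {x : ℝ | ∃ p, A.ForcesCaptured p x} ⊆ ⋃ i, X i := by
  obtain ⟨C, hC1, hC2⟩ := hP
  have h := fun i => A.exists_limit (C i) (hC2 i)
  choose B hB using h
  classical
  -- pieces may be empty; then use the empty sequence
  refine ⟨fun i => {x : ℝ | (C i).Nonempty ∧ ∃ K : ℕ, ∀ n : ℕ, K ≤ n →
      ∃ m : ℕ, n ≤ m ∧ m ≤ K * n ∧ ∃ a ∈ B i m, |x - a| ≤ (1/2) ^ m}, ?_, ?_⟩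
  · intro i
    by_cases hne : (C i).Nonempty
    · obtain ⟨p, hp⟩ := hne
      refine ⟨B i, fun m => ?_, fun x hx => hx.2⟩
      obtain ⟨q, -, hq⟩ := hB i m p hp
      exact A.card _ _ _ (hq m le_rfl)
    · exact ⟨fun _ => ∅, fun m => by
        simp only [Finset.card_empty, CharP.cast_eq_zero]; positivity, fun x hx => absurd hx.1 hne⟩
  · rintro x ⟨p, hp⟩
    obtain ⟨r, -, K, hK⟩ := hp p le_rfl
    obtain ⟨i, hi⟩ := hC1 r
    refine mem_iUnion.2 ⟨i, ⟨r, hi⟩, K, fun n hn => ?_⟩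
    obtain ⟨q, hq1, hq2⟩ := hB i (K * n) r hi
    obtain ⟨r'', hr'', m, hm1, hm2, F, hF, a, ha, hxa⟩ := hK n hn q hq1
    have h1 := A.mono _ _ _ _ hr'' (hq2 m hm2)
    have h2 := A.unique _ _ _ _ hF h1
    exact ⟨m, hm1, hm2, a, h2 ▸ ha, hxa⟩

end Pool.Agent.H91.Liou
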